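import Mathlib

open MeasureTheory Set Filter Topology Metric

namespace Pool.Agent.Results.MP_9ab776_an

lemma hasSum_le_single {ι : Type*} {D : ι → ℝ} {S : ℝ} (h : HasSum D S) (y : ι) (hD : ∀ z, z ≠ y → D z ≤ 0) : 
    S ≤ D y := by
  classical
  have h1 : HasSum (fun z => if z = y then D y else 0) (D y) := hasSum_ite_eq y (D y)
  refine hasSum_le (fun z => ?_) h h1
  by_cases hz : z = y
  · rw [if_pos hz, hz]
  · rw [if_neg hz]; exact hD z hz

/-- selection of the cell -/
lemma exists_big {ι : Type*} {p E s κ : ℝ} (hp : 2 < p) (hE : 0 < E) (hκ : 0 < κ) 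
    (hκs : κ^((p-2)/p) * (1+s)^2 < 1)
    {a M : ι → ℝ} {A B : ℝ} (ha : ∀ z, 0 ≤ a z) (hA : HasSum a A) (hA' : A ≤ (1+s)^2 * E) 
    (hB : HasSum M B) (hB' : E ≤ B) (hM : ∀ z, M z * E^((p-2)/2) ≤ (a z)^(p/2)) : 
    ∃ y, κ * E < M y := by
  by_contra hcon
  push Not at hcon
  have hp0 : 0 < p := by linarith
  have key : ∀ z, M z ≤ κ^((p-2)/p) * a z := by
    intro z
    by_cases hz : M z ≤ 0
    · exact hz.trans (mul_nonneg (by positivity) (ha z))
    · push Not at hz
      have h1 := Real.rpow_le_rpow (by positivity) (hM z) (show 0 ≤ 2/p by positivity)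
      rw [← Real.rpow_mul (ha z), Real.mul_rpow hz.le (by positivity), ← Real.rpow_mul hE.le] at h1
      rw [show p / 2 * (2 / p) = 1 by field_simp, Real.rpow_one, show (p-2)/2 * (2/p) = (p-2)/p by field_simp] at h1
      have h2 : M z = (M z)^((p-2)/p) * (M z)^(2/p) := by
        rw [← Real.rpow_add hz, show (p-2)/p + 2/p = 1 by field_simp; ring, Real.rpow_one]
      have h3 : (M z)^((p-2)/p) ≤ κ^((p-2)/p) * E^((p-2)/p) := by
        rw [← Real.mul_rpow hκ.le hE.le]
        exact Real.rpow_le_rpow hz.le (hcon z) (div_nonneg (by linarith) hp0.le)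
      calc M z = (M z)^((p-2)/p) * (M z)^(2/p) := h2
        _ ≤ (κ^((p-2)/p) * E^((p-2)/p)) * (M z)^(2/p) := by gcongr
        _ = κ^((p-2)/p) * ((M z)^(2/p) * E^((p-2)/p)) := by ring
        _ ≤ κ^((p-2)/p) * a z := by gcongr
  have h1 : B ≤ κ^((p-2)/p) * A := hasSum_le key hB (hA.mul_left _)
  have h2 : κ^((p-2)/p) * A ≤ κ^((p-2)/p) * ((1+s)^2 * E) := by gcongr
  nlinarith

/-- consequences for the selected cell -/
lemma abstract_main {ι : Type*} {p E s κ C1 C2 : ℝ} (hp : 2 < p) (hE : 0 < E) (hs : 0 < s) (hκ : 0 < κ) (hκ1 : κ < 1)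
    (hC1 : 0 < C1) (hC2 : 0 < C2) (hκs : κ^((p-2)/p) * (1+s)^2 < 1)
    {a M M2 T : ι → ℝ} {A B TT : ℝ} (ha : ∀ z, 0 ≤ a z) (hA : HasSum a A) (hA' : A ≤ (1+s)^2 * E) 
    (hB : HasSum M B) (hB' : E ≤ B) (hT : HasSum T TT) 
    (hM : ∀ z, M z * E^((p-2)/2) ≤ (a z)^(p/2)) 
    (hM2 : ∀ z, M2 z * E^((p-2)/2) ≤ C1 * (a z)^(p/2)) 
    (hG : ∀ z, ((T z + M z)/2) * E^((p-2)/2) ≤ C2 * ((a z)^(p/2) + ((M2 z - M z)/2) * E^((p-2)/2))) : 
    ∃ y, κ * E < M y ∧ κ^(2/p) * E ≤ a y ∧ 
      TT - T y ≤ (C2 * (2 + C1) * ((1+s)^2 - κ^(2/p))^(p/2) + (C2 + 1) * ((1+s)^p - 1)) * E := by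
  obtain ⟨y, hy⟩ := exists_big hp hE hκ hκs ha hA hA' hB hB' hM
  have hp0 : 0 < p := by linarith
  have hp2 : 0 < p - 2 := by linarith
  refine ⟨y, hy, ?_, ?_⟩
  · have h1 : κ * E * E^((p-2)/2) ≤ (a y)^(p/2) := (mul_le_mul_of_nonneg_right hy.le (by positivity)).trans (hM y)
    have h2 := Real.rpow_le_rpow (by positivity) h1 (show 0 ≤ 2/p by positivity)
    rw [← Real.rpow_mul (ha y), show p / 2 * (2 / p) = 1 by field_simp, Real.rpow_one, mul_assoc, 
      Real.mul_rpow hκ.le (by positivity)] at h2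
    have h3 : E * E^((p-2)/2) = E^(p/2) := by
      rw [← Real.rpow_one_add' hE.le (by linarith)]
      congr 1; ring
    rw [h3, ← Real.rpow_mul hE.le, show p / 2 * (2 / p) = 1 by field_simp, Real.rpow_one] at h2
    exact h2
  · have hay : κ^(2/p) * E ≤ a y := by
      have h1 : κ * E * E^((p-2)/2) ≤ (a y)^(p/2) := (mul_le_mul_of_nonneg_right hy.le (by positivity)).trans (hM y)
      have h2 := Real.rpow_le_rpow (by positivity) h1 (show 0 ≤ 2/p by positivity)
      rw [← Real.rpow_mul (ha y), show p / 2 * (2 / p) = 1 by field_simp, Real.rpow_one, mul_assoc, 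
        Real.mul_rpow hκ.le (by positivity)] at h2
      have h3 : E * E^((p-2)/2) = E^(p/2) := by
        rw [← Real.rpow_one_add' hE.le (by linarith)]
        congr 1; ring
      rw [h3, ← Real.rpow_mul hE.le, show p / 2 * (2 / p) = 1 by field_simp, Real.rpow_one] at h2
      exact h2
    have hκp : κ^(2/p) < 1 := Real.rpow_lt_one hκ.le hκ1 (by positivity)
    set σ := (1+s)^2 - κ^(2/p) with hσ
    have hσ0 : 0 < σ := by nlinarith
    have hE' : 0 < E^((p-2)/2) := by positivity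
    -- a z for z ≠ y
    have haz : ∀ z, z ≠ y → a z ≤ σ * E := by
      intro z hz
      classical
      have h1 : ∑ i ∈ ({z, y} : Finset ι), a i ≤ A := sum_le_hasSum _ (fun i _ => ha i) hA
      rw [Finset.sum_pair hz] at h1
      rw [hσ]; linarith
    have hazp : ∀ z, z ≠ y → (a z)^(p/2) ≤ σ^((p-2)/2) * a z * E^((p-2)/2) := by
      intro z hz
      have h1 : (a z)^(p/2) = (a z)^((p-2)/2) * a z := by
        rw [mul_comm, ← Real.rpow_one_add' (ha z) (by linarith)]
        congr 1; ring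
      rw [h1]
      have h2 : (a z)^((p-2)/2) ≤ (σ * E)^((p-2)/2) := Real.rpow_le_rpow (ha z) (haz z hz) (by linarith)
      rw [Real.mul_rpow hσ0.le hE.le] at h2
      calc (a z)^((p-2)/2) * a z ≤ (σ^((p-2)/2) * E^((p-2)/2)) * a z := mul_le_mul_of_nonneg_right h2 (ha z)
        _ = _ := by ring
    set σ' := σ^((p-2)/2) with hσ'
    have hσ'0 : 0 < σ' := by positivity
    have hTz : ∀ z, z ≠ y → T z - C2 * (2 + C1) * σ' * a z + (C2 + 1) * M z ≤ 0 := by
      intro z hz
      have h1 := hazp z hz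
      have h2 : M2 z ≤ C1 * (σ' * a z) := by
        have : M2 z * E^((p-2)/2) ≤ (C1 * (σ' * a z)) * E^((p-2)/2) := by
          refine (hM2 z).trans ?_
          calc C1 * (a z)^(p/2) ≤ C1 * (σ' * a z * E^((p-2)/2)) := by gcongr
            _ = _ := by ring
        exact le_of_mul_le_mul_right this hE'
      have h3 : (T z + M z)/2 ≤ C2 * (σ' * a z + (M2 z - M z)/2) := by
        have : ((T z + M z)/2) * E^((p-2)/2) ≤ (C2 * (σ' * a z + (M2 z - M z)/2)) * E^((p-2)/2) := by
          refine (hG z).trans ?_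
          calc C2 * ((a z)^(p/2) + ((M2 z - M z)/2) * E^((p-2)/2)) ≤ 
                C2 * (σ' * a z * E^((p-2)/2) + ((M2 z - M z)/2) * E^((p-2)/2)) := by gcongr
            _ = _ := by ring
        exact le_of_mul_le_mul_right this hE'
      have h4 := mul_le_mul_of_nonneg_left h2 hC2.le
      nlinarith
    have hD : HasSum (fun z => T z - C2 * (2 + C1) * σ' * a z + (C2 + 1) * M z) 
        (TT - C2 * (2 + C1) * σ' * A + (C2 + 1) * B) := 
      (hT.sub (hA.mul_left _)).add (hB.mul_left _)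
    have h1 := hasSum_le_single hD y hTz
    beta_reduce at h1
    have h2 : A - a y ≤ σ * E := by rw [hσ]; linarith
    have h3 : M y ≤ (1+s)^p * E := by
      have h4 : a y ≤ A := le_hasSum hA y (fun z _ => ha z)
      have h5 : M y * E^((p-2)/2) ≤ ((1+s)^p * E) * E^((p-2)/2) := by
        refine (hM y).trans ((Real.rpow_le_rpow (ha y) (h4.trans hA') (by positivity)).trans ?_)
        rw [Real.mul_rpow (by positivity) hE.le, ← Real.rpow_natCast, ← Real.rpow_mul (by positivity), mul_assoc]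
        have h6 : E * E^((p-2)/2) = E^(p/2) := by
          rw [← Real.rpow_one_add' hE.le (by linarith)]
          congr 1; ring
        rw [h6]
        apply le_of_eq
        congr 2
        push_cast; ring
      exact le_of_mul_le_mul_right h5 hE'
    have h4 : σ^(p/2) = σ' * σ := by
      rw [hσ', mul_comm, ← Real.rpow_one_add' hσ0.le (by linarith)]
      congr 1; ring
    have h5 : C2 * (2 + C1) * σ' * (A - a y) ≤ C2 * (2 + C1) * σ' * (σ * E) := by gcongr
    have h6 : (C2 + 1) * (M y - B) ≤ (C2 + 1) * ((1+s)^p * E - E) := by gcongr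
    rw [h4]
    nlinarith

end Pool.Agent.Results.MP_9ab776_an
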