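import Pool.Agent.Hhelper28.Core.Defs

open MeasureTheory Set Filter Topology Metric
open scoped ContDiff

namespace Pool.Agent.Results.MP_9ab776_an

variable {N : ℕ}

/-- smooth bounded multipliers with bounded gradient -/
structure IsMult (m : E N → ℝ) : Prop where
  smooth : ContDiff ℝ ∞ m
  bdd : ∃ C : ℝ, ∀ x, |m x| ≤ C
  bddGrad : ∃ C : ℝ, ∀ x, ‖gradient m x‖ ≤ C

lemma continuous_gradient {f : E N → ℝ} (hf : ContDiff ℝ ∞ f) : Continuous (gradient f) := by
  have h1 : Continuous (fderiv ℝ f) := hf.continuous_fderiv (by simp)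
  exact (LinearIsometryEquiv.continuous _).comp h1

lemma differentiableAt_of_smooth {f : E N → ℝ} (hf : ContDiff ℝ ∞ f) (x : E N) : DifferentiableAt ℝ f x :=
  (hf.differentiable (by simp)) x

lemma gradient_mul {f k : E N → ℝ} {x : E N} (hf : DifferentiableAt ℝ f x) (hk : DifferentiableAt ℝ k x) :
    gradient (fun x => f x * k x) x = f x • gradient k x + k x • gradient f x := by
  apply (InnerProductSpace.toDual ℝ (E N)).injective
  rw [toDual_gradient, map_add, map_smul, map_smul, toDual_gradient, toDual_gradient]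
  exact fderiv_fun_mul hf hk

lemma gradient_hasCompactSupport {f : E N → ℝ} (hf : HasCompactSupport f) : HasCompactSupport (gradient f) := by
  have : gradient f = (fun L => (InnerProductSpace.toDual ℝ (E N)).symm L) ∘ (fderiv ℝ f) := rfl
  rw [this]
  exact (hf.fderiv ℝ).comp_left (by simp)

lemma IsMult.sq {m : E N → ℝ} (hm : IsMult m) : IsMult (fun x => m x * m x) := by
  obtain ⟨C, hC⟩ := hm.bdd
  obtain ⟨D, hD⟩ := hm.bddGrad
  refine ⟨hm.smooth.mul hm.smooth, ⟨C * C, fun x => ?_⟩, ⟨C * D + C * D, fun x => ?_⟩⟩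
  · rw [abs_mul]
    exact mul_le_mul (hC x) (hC x) (abs_nonneg _) ((abs_nonneg _).trans (hC x))
  · rw [gradient_mul (differentiableAt_of_smooth hm.smooth x) (differentiableAt_of_smooth hm.smooth x)]
    refine (norm_add_le _ _).trans ?_
    rw [norm_smul, Real.norm_eq_abs]
    have := mul_le_mul (hC x) (hD x) (norm_nonneg _) ((abs_nonneg _).trans (hC x))
    linarith

lemma IsMult.mul {m k : E N → ℝ} (hm : IsMult m) (hk : IsMult k) : IsMult (fun x => m x * k x) := by
  obtain ⟨C, hC⟩ := hm.bdd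
  obtain ⟨D, hD⟩ := hm.bddGrad
  obtain ⟨C', hC'⟩ := hk.bdd
  obtain ⟨D', hD'⟩ := hk.bddGrad
  refine ⟨hm.smooth.mul hk.smooth, ⟨C * C', fun x => ?_⟩, ⟨C * D' + C' * D, fun x => ?_⟩⟩
  · rw [abs_mul]
    exact mul_le_mul (hC x) (hC' x) (abs_nonneg _) ((abs_nonneg _).trans (hC x))
  · rw [gradient_mul (differentiableAt_of_smooth hm.smooth x) (differentiableAt_of_smooth hk.smooth x)]
    refine (norm_add_le _ _).trans ?_
    rw [norm_smul, norm_smul, Real.norm_eq_abs, Real.norm_eq_abs]
    have h1 := mul_le_mul (hC x) (hD' x) (norm_nonneg _) ((abs_nonneg _).trans (hC x))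
    have h2 := mul_le_mul (hC' x) (hD x) (norm_nonneg _) ((abs_nonneg _).trans (hC' x))
    linarith

lemma isMult_of_compact {m : E N → ℝ} (hm : ContDiff ℝ ∞ m) (hc : HasCompactSupport m) : IsMult m := by
  refine ⟨hm, ?_, ?_⟩
  · obtain ⟨C, hC⟩ := hm.continuous.bounded_above_of_compact_support hc
    exact ⟨C, fun x => by simpa using hC x⟩
  · obtain ⟨C, hC⟩ := (continuous_gradient hm).bounded_above_of_compact_support (gradient_hasCompactSupport hc)
    exact ⟨C, hC⟩

lemma integrable_sq {u : E N → ℝ} (hu : MemLp u 2 volume) : Integrable (fun x => (u x)^2) := hu.integrable_sq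

lemma integrable_normsq {g : E N → E N} (hg : MemLp g 2 volume) : Integrable (fun x => ‖g x‖^2) := 
  hg.norm.integrable_sq

lemma memLp_smooth {φ : E N → ℝ} (h : ContDiff ℝ ∞ φ) (hc : HasCompactSupport φ) : MemLp φ 2 volume :=
  h.continuous.memLp_of_hasCompactSupport hc

lemma memLp_gradient_smooth {φ : E N → ℝ} (h : ContDiff ℝ ∞ φ) (hc : HasCompactSupport φ) : 
    MemLp (gradient φ) 2 volume :=
  (continuous_gradient h).memLp_of_hasCompactSupport (gradient_hasCompactSupport hc)

lemma isH1_of_smooth {φ : E N → ℝ} (h : ContDiff ℝ ∞ φ) (hc : HasCompactSupport φ) : IsH1 φ (gradient φ) :=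
  ⟨memLp_smooth h hc, memLp_gradient_smooth h hc, fun δ hδ => ⟨φ, h, hc, by simpa using hδ⟩⟩

lemma IsH1.integrable {u : E N → ℝ} {g : E N → E N} (h : IsH1 u g) : 
    Integrable (fun x => ‖g x‖^2 + (u x)^2) :=
  (integrable_normsq h.memLp_grad).add (integrable_sq h.memLp)

lemma normSq_nonneg (u : E N → ℝ) (g : E N → E N) : 0 ≤ normSq u g :=
  integral_nonneg fun x => by positivity

lemma memLp_mul {m : E N → ℝ} (hm : Continuous m) {C : ℝ} (hC : ∀ x, |m x| ≤ C) {u : E N → ℝ}
    (hu : MemLp u 2 volume) : MemLp (fun x => m x * u x) 2 volume := by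
  refine MemLp.of_le_mul (c := C) hu (hm.aestronglyMeasurable.mul hu.1) (Eventually.of_forall fun x => ?_)
  rw [norm_mul, Real.norm_eq_abs]
  exact mul_le_mul_of_nonneg_right (hC x) (norm_nonneg _)

lemma memLp_smul {m : E N → ℝ} (hm : Continuous m) {C : ℝ} (hC : ∀ x, |m x| ≤ C) {g : E N → E N}
    (hg : MemLp g 2 volume) : MemLp (fun x => m x • g x) 2 volume := by
  refine MemLp.of_le_mul (c := C) hg (hm.aestronglyMeasurable.smul hg.1) (Eventually.of_forall fun x => ?_)
  rw [norm_smul, Real.norm_eq_abs]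
  exact mul_le_mul_of_nonneg_right (hC x) (norm_nonneg _)

lemma memLp_smul' {G : E N → E N} (hG : Continuous G) {C : ℝ} (hC : ∀ x, ‖G x‖ ≤ C) {u : E N → ℝ}
    (hu : MemLp u 2 volume) : MemLp (fun x => u x • G x) 2 volume := by
  refine MemLp.of_le_mul (c := C) hu (hu.1.smul hG.aestronglyMeasurable) (Eventually.of_forall fun x => ?_)
  rw [norm_smul, mul_comm]
  exact mul_le_mul_of_nonneg_right (hC x) (norm_nonneg _)

lemma norm_add_sq_le (a b : E N) : ‖a + b‖^2 ≤ 2 * ‖a‖^2 + 2 * ‖b‖^2 := by
  have h1 := norm_add_le a b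
  have h2 : ‖a + b‖^2 ≤ (‖a‖ + ‖b‖)^2 := pow_le_pow_left₀ (norm_nonneg _) h1 2
  nlinarith [sq_nonneg (‖a‖ - ‖b‖)]

/-- product with a multiplier -/
lemma IsH1.mul {u : E N → ℝ} {g : E N → E N} (h : IsH1 u g) {m : E N → ℝ} (hm : IsMult m) :
    IsH1 (fun x => m x * u x) (fun x => m x • g x + u x • gradient m x) := by
  obtain ⟨C, hC⟩ := hm.bdd
  obtain ⟨D, hD⟩ := hm.bddGrad
  have hgc := continuous_gradient hm.smooth
  refine ⟨memLp_mul hm.smooth.continuous hC h.memLp, 
    (memLp_smul hm.smooth.continuous hC h.memLp_grad).add (memLp_smul' hgc hD h.memLp), ?_⟩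
  intro δ hδ
  set K : ℝ := 2 * C^2 + 2 * D^2 + 1 with hK
  have hKpos : 0 < K := by positivity
  obtain ⟨φ, hφ, hφc, hφδ⟩ := h.approx (δ / K) (by positivity)
  refine ⟨fun x => m x * φ x, hm.smooth.mul hφ, hφc.mul_left, ?_⟩
  have hi : Integrable (fun x => (u x - φ x)^2 + ‖g x - gradient φ x‖^2) :=
    (integrable_sq (h.memLp.sub (memLp_smooth hφ hφc))).add 
      (integrable_normsq (h.memLp_grad.sub (memLp_gradient_smooth hφ hφc)))
  calc ∫ x, ((m x * u x - m x * φ x)^2 + ‖m x • g x + u x • gradient m x - gradient (fun x => m x * φ x) x‖^2)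
      ≤ ∫ x, K * ((u x - φ x)^2 + ‖g x - gradient φ x‖^2) := by
        refine integral_mono_of_nonneg (Eventually.of_forall fun x => by positivity) (hi.const_mul K)
          (Eventually.of_forall fun x => ?_)
        beta_reduce
        rw [gradient_mul (differentiableAt_of_smooth hm.smooth x) (differentiableAt_of_smooth hφ x)]
        have e1 : m x • g x + u x • gradient m x - (m x • gradient φ x + φ x • gradient m x) = 
            m x • (g x - gradient φ x) + (u x - φ x) • gradient m x := by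
          rw [smul_sub, sub_smul]; abel
        rw [e1]
        have h1 := norm_add_sq_le (m x • (g x - gradient φ x)) ((u x - φ x) • gradient m x)
        rw [norm_smul, norm_smul, mul_pow, mul_pow, Real.norm_eq_abs, Real.norm_eq_abs, sq_abs, sq_abs] at h1
        have h2 : (m x)^2 ≤ C^2 := by
          rw [← sq_abs]; exact pow_le_pow_left₀ (abs_nonneg _) (hC x) 2
        have h3 : ‖gradient m x‖^2 ≤ D^2 := pow_le_pow_left₀ (norm_nonneg _) (hD x) 2
        have h4 : (m x * u x - m x * φ x)^2 = (m x)^2 * (u x - φ x)^2 := by ring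
        rw [h4]
        have h5 := mul_le_mul_of_nonneg_right h2 (sq_nonneg (u x - φ x))
        have h6 := mul_le_mul_of_nonneg_right h2 (sq_nonneg (‖g x - gradient φ x‖))
        have h7 := mul_le_mul_of_nonneg_left h3 (sq_nonneg (u x - φ x))
        have h8 := sq_nonneg (u x - φ x)
        have h9 := sq_nonneg (‖g x - gradient φ x‖)
        have h10 : 0 ≤ C^2 := sq_nonneg _
        have h11 : 0 ≤ D^2 := sq_nonneg _
        rw [hK]
        nlinarith [mul_nonneg h10 h8, mul_nonneg h11 h9]
    _ = K * ∫ x, ((u x - φ x)^2 + ‖g x - gradient φ x‖^2) := integral_const_mul _ _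
    _ < K * (δ / K) := by gcongr
    _ = δ := by field_simp

/-- scalar multiples -/
lemma IsH1.smul {u : E N → ℝ} {g : E N → E N} (h : IsH1 u g) (t : ℝ) :
    IsH1 (fun x => t * u x) (fun x => t • g x) := by
  refine ⟨h.memLp.const_mul t, h.memLp_grad.const_smul t, ?_⟩
  intro δ hδ
  obtain ⟨φ, hφ, hφc, hφδ⟩ := h.approx (δ / (t^2 + 1)) (by positivity)
  refine ⟨fun x => t * φ x, contDiff_const.mul hφ, hφc.mul_left, ?_⟩
  have hi : Integrable (fun x => (u x - φ x)^2 + ‖g x - gradient φ x‖^2) :=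
    (integrable_sq (h.memLp.sub (memLp_smooth hφ hφc))).add 
      (integrable_normsq (h.memLp_grad.sub (memLp_gradient_smooth hφ hφc)))
  have e : ∀ x, ((t * u x - t * φ x)^2 + ‖t • g x - gradient (fun x => t * φ x) x‖^2) = 
      t^2 * ((u x - φ x)^2 + ‖g x - gradient φ x‖^2) := by
    intro x
    have e1 : gradient (fun x => t * φ x) x = t • gradient φ x := by
      have := gradient_mul (x := x) (f := fun _ => t) (k := φ) (differentiableAt_const _) 
        (differentiableAt_of_smooth hφ x)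
      rw [this, gradient_fun_const]
      simp
    rw [e1, ← smul_sub, norm_smul, mul_pow, Real.norm_eq_abs, sq_abs]
    ring
  simp only [e]
  rw [integral_const_mul]
  have h0 : 0 ≤ ∫ x, ((u x - φ x)^2 + ‖g x - gradient φ x‖^2) := 
    integral_nonneg fun x => by positivity
  calc t^2 * ∫ x, ((u x - φ x)^2 + ‖g x - gradient φ x‖^2) 
      ≤ (t^2+1) * ∫ x, ((u x - φ x)^2 + ‖g x - gradient φ x‖^2) := by gcongr; linarith
    _ < (t^2+1) * (δ / (t^2+1)) := by gcongr
    _ = δ := by field_simp

/-- change of variables for `x ↦ z + s x` -/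
lemma integral_affine (f : E N → ℝ) (z : E N) (s : ℝ) (hs : 0 < s) : 
    ∫ x, f (z + s • x) = (s^N)⁻¹ * ∫ x, f x := by
  have h1 := Measure.integral_comp_smul (volume : Measure (E N)) (fun x => f (z + x)) s
  rw [h1, integral_add_left_eq_self (fun x => f x) z]
  rw [finrank_euclideanSpace, Fintype.card_fin, abs_of_pos (by positivity), smul_eq_mul]

lemma memLp_affine {F : Type*} [NormedAddCommGroup F] {f : E N → F} (hf : MemLp f 2 volume) (z : E N) 
    (s : ℝ) (hs : 0 < s) : MemLp (fun x => f (z + s • x)) 2 volume := by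
  have h1 : MemLp (fun x => f (z + x)) 2 volume := 
    hf.comp_measurePreserving (measurePreserving_add_left volume z)
  have hq : Measure.QuasiMeasurePreserving (fun x : E N => s • x) volume volume := 
    Measure.quasiMeasurePreserving_smul (volume : Measure (E N)) hs.ne'
  have hm : AEStronglyMeasurable (fun x => f (z + s • x)) volume := h1.1.comp_quasiMeasurePreserving hq
  rw [memLp_two_iff_integrable_sq_norm hm]
  have h2 : Integrable (fun x => ‖f (z + x)‖^2) := (memLp_two_iff_integrable_sq_norm h1.1).1 h1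
  exact h2.comp_smul hs.ne'

/-- dilations -/
lemma IsH1.affine {u : E N → ℝ} {g : E N → E N} (h : IsH1 u g) (z : E N) (s : ℝ) (hs : 0 < s) :
    IsH1 (fun x => u (z + s • x)) (fun x => s • g (z + s • x)) := by
  refine ⟨memLp_affine h.memLp z s hs, (memLp_affine h.memLp_grad z s hs).const_smul s, ?_⟩
  intro δ hδ
  have hsN : (0:ℝ) < s^N := by positivity
  obtain ⟨φ, hφ, hφc, hφδ⟩ := h.approx (δ * s^N / (s^2 + 1)) (by positivity)
  have haff : ContDiff ℝ ∞ (fun x : E N => z + s • x) := by fun_prop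
  refine ⟨fun x => φ (z + s • x), hφ.comp haff, ?_, ?_⟩
  · let e : E N ≃ₜ E N := (Homeomorph.smulOfNeZero s hs.ne').trans (Homeomorph.addLeft z)
    exact hφc.comp_homeomorph e
  · have hi : Integrable (fun x => (u x - φ x)^2 + ‖g x - gradient φ x‖^2) :=
      (integrable_sq (h.memLp.sub (memLp_smooth hφ hφc))).add 
        (integrable_normsq (h.memLp_grad.sub (memLp_gradient_smooth hφ hφc)))
    have egrad : ∀ x, gradient (fun x => φ (z + s • x)) x = s • gradient φ (z + s • x) := by
      intro x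
      apply (InnerProductSpace.toDual ℝ (E N)).injective
      rw [toDual_gradient, map_smul, toDual_gradient]
      have hd : HasFDerivAt (fun x : E N => z + s • x) (s • ContinuousLinearMap.id ℝ (E N)) x := by
        have := (hasFDerivAt_id (𝕜 := ℝ) x).const_smul s
        exact this.const_add z
      have h0 : HasFDerivAt (fun x => φ (z + s • x)) 
          ((fderiv ℝ φ (z + s • x)).comp (s • ContinuousLinearMap.id ℝ (E N))) x := 
        (differentiableAt_of_smooth hφ (z + s • x)).hasFDerivAt.comp x hd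
      rw [h0.fderiv]
      ext y
      simp
    have e : ∀ x, ((u (z + s • x) - φ (z + s • x))^2 + 
        ‖s • g (z + s • x) - gradient (fun x => φ (z + s • x)) x‖^2) = 
        (fun y => (u y - φ y)^2 + s^2 * ‖g y - gradient φ y‖^2) (z + s • x) := by
      intro x
      rw [egrad, ← smul_sub, norm_smul, mul_pow, Real.norm_eq_abs, sq_abs]
    simp only [e]
    rw [integral_affine (fun y => (u y - φ y)^2 + s^2 * ‖g y - gradient φ y‖^2) z s hs]
    have hle : ∫ y, ((u y - φ y)^2 + s^2 * ‖g y - gradient φ y‖^2) ≤ 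
        (s^2 + 1) * ∫ x, ((u x - φ x)^2 + ‖g x - gradient φ x‖^2) := by
      rw [← integral_const_mul]
      refine integral_mono_of_nonneg (Eventually.of_forall fun x => by positivity) (hi.const_mul _)
        (Eventually.of_forall fun x => ?_)
      beta_reduce
      nlinarith [sq_nonneg (u x - φ x), sq_nonneg (‖g x - gradient φ x‖), 
        mul_nonneg (sq_nonneg s) (sq_nonneg (u x - φ x))]
    calc (s^N)⁻¹ * ∫ y, ((u y - φ y)^2 + s^2 * ‖g y - gradient φ y‖^2) 
        ≤ (s^N)⁻¹ * ((s^2 + 1) * ∫ x, ((u x - φ x)^2 + ‖g x - gradient φ x‖^2)) := by gcongr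
      _ < (s^N)⁻¹ * ((s^2 + 1) * (δ * s^N / (s^2 + 1))) := by gcongr
      _ = δ := by field_simp

lemma normSq_smul (u : E N → ℝ) (g : E N → E N) (t : ℝ) : 
    normSq (fun x => t * u x) (fun x => t • g x) = t^2 * normSq u g := by
  unfold normSq
  rw [← integral_const_mul]
  congr 1
  funext x
  rw [norm_smul, mul_pow, mul_pow, Real.norm_eq_abs, sq_abs]
  ring

end Pool.Agent.Results.MP_9ab776_an
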