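import Pool.Agent.Hhelper28.Core.Variational

open MeasureTheory Set Filter Topology Metric
open scoped ContDiff

namespace Pool.Agent.Results.MP_9ab776_an

variable {N : ℕ}

lemma gradient_eq_zero_of_fderiv {f : E N → ℝ} {x : E N} (h : fderiv ℝ f x = 0) : gradient f x = 0 := by
  unfold gradient
  rw [h, map_zero]

lemma gradient_zero_of_min {f : E N → ℝ} {x : E N} (h0 : ∀ y, 0 ≤ f y) (hx : f x = 0) : gradient f x = 0 := by
  apply gradient_eq_zero_of_fderiv
  apply IsLocalMin.fderiv_eq_zero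
  exact Eventually.of_forall fun y => by rw [hx]; exact h0 y

lemma gradient_zero_of_max {f : E N → ℝ} {x : E N} (h0 : ∀ y, f y ≤ 1) (hx : f x = 1) : gradient f x = 0 := by
  apply gradient_eq_zero_of_fderiv
  apply IsLocalMax.fderiv_eq_zero
  exact Eventually.of_forall fun y => by rw [hx]; exact h0 y

lemma one_le_dist_latt {y z : Fin N → ℤ} (h : y ≠ z) : 1 ≤ dist (latt y : E N) (latt z) := by
  obtain ⟨i, hi⟩ := Function.ne_iff.1 h
  have h1 : 1 ≤ dist (latt y : E N) (latt z)^2 := by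
    rw [dist_sq]
    have h2 : ((latt y : E N) i - (latt z : E N) i)^2 ≤ ∑ i, ((latt y : E N) i - (latt z : E N) i)^2 := 
      Finset.single_le_sum (f := fun i => ((latt y : E N) i - (latt z : E N) i)^2) (fun i _ => sq_nonneg _) (Finset.mem_univ i)
    refine le_trans ?_ h2
    rw [latt_apply, latt_apply]
    have h3 : 1 ≤ (y i - z i)^2 := by
      have : y i - z i ≠ 0 := sub_ne_zero.2 hi
      have := sq_nonneg (y i - z i)
      have : 0 < (y i - z i)^2 := by positivity
      omega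
    have h5 : (1:ℝ) ≤ ((y i - z i : ℤ) : ℝ)^2 := by exact_mod_cast h3
    push_cast at h5
    exact h5
  by_contra h4
  push Not at h4
  have := pow_lt_one₀ dist_nonneg h4 two_ne_zero
  linarith

/-- the cell -/
def cell (z : Fin N → ℤ) : Set (E N) := ball (latt z) (1/2)

lemma cell_meas (z : Fin N → ℤ) : MeasurableSet (cell z) := measurableSet_ball

lemma cell_disjoint : Pairwise (Function.onFun Disjoint (cell : (Fin N → ℤ) → Set (E N))) := by
  intro y z hyz
  refine ball_disjoint_ball ?_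
  have := one_le_dist_latt hyz
  linarith

lemma notMem_ball_of_cell {x : E N} {z : Fin N → ℤ} (hx : x ∈ cell z) {y : Fin N → ℤ} (hy : y ≠ z) {δ : ℝ} (hδ : δ ≤ 1/2) : 
    x ∉ ball (latt y) δ := by
  intro h
  have h1 : x ∈ cell y := ball_subset_ball hδ h
  exact (Set.disjoint_left.1 (cell_disjoint hy)) h1 hx

open Classical in
lemma Q_cell {x : E N} {z : Fin N → ℤ} (hx : x ∈ cell z) {ε : ℝ} (hε : ε ≤ 1/2) : 
    Q ε x = if x ∈ ball (latt z) ε then 1 else -1 := by
  unfold Q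
  by_cases h : x ∈ ball (latt z) ε
  · rw [if_pos ⟨z, h⟩, if_pos h]
  · rw [if_neg, if_neg h]
    rintro ⟨y, hy⟩
    by_cases hyz : y = z
    · rw [hyz] at hy; exact h hy
    · exact notMem_ball_of_cell hx hyz hε hy

/-- sums over cells -/
lemma hasSum_cell {f : E N → ℝ} (hf : Integrable f) (h0 : ∀ x, (∀ z, x ∉ cell z) → f x = 0) : 
    HasSum (fun z : Fin N → ℤ => ∫ x in cell z, f x) (∫ x, f x) := by
  have h1 := hasSum_integral_iUnion (μ := volume) (f := f) (s := fun z : Fin N → ℤ => cell z) (fun z => cell_meas z) cell_disjoint hf.integrableOn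
  rw [setIntegral_eq_integral_of_forall_compl_eq_zero] at h1
  · exact h1
  · intro x hx
    apply h0
    intro z hz
    exact hx (mem_iUnion.2 ⟨z, hz⟩)

/-- data of a cutoff -/
structure IsCut (Ψ : E N → ℝ) (δ r : ℝ) : Prop where
  mult : IsMult Ψ
  nonneg : ∀ x, 0 ≤ Ψ x
  le_one : ∀ x, Ψ x ≤ 1
  one : ∀ x y, x ∈ ball (latt y) r → Ψ x = 1
  zero : ∀ x, (∀ y, x ∉ ball (latt y) δ) → Ψ x = 0

lemma IsCut.grad_zero {Ψ : E N → ℝ} {δ r : ℝ} (h : IsCut Ψ δ r) {x : E N} (hx : ∀ y, x ∉ ball (latt y) δ) : 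
    gradient Ψ x = 0 := gradient_zero_of_min h.nonneg (h.zero x hx)

lemma cell_fun {Ψ : E N → ℝ} {δ r : ℝ} (h : IsCut Ψ δ r) (hδ0 : 0 < δ) (hδ : δ < 1/2) (z : Fin N → ℤ) : 
    ∃ ψ : E N → ℝ, IsMult ψ ∧ (∀ x ∈ cell z, ψ x = Ψ x ∧ gradient ψ x = gradient Ψ x) ∧ 
      (∀ x, x ∉ cell z → ψ x = 0 ∧ gradient ψ x = 0) := by
  let χ : ContDiffBump (latt z : E N) := ⟨δ, 1/2, hδ0, hδ⟩
  have hχs : ContDiff ℝ ∞ (χ : E N → ℝ) := χ.contDiff
  have hχm : IsMult (χ : E N → ℝ) := isMult_of_compact hχs χ.hasCompactSupport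
  have hχ0 : ∀ x, 0 ≤ χ x := fun x => χ.nonneg
  have hχ1 : ∀ x, χ x ≤ 1 := fun x => χ.le_one
  have hg : ∀ x, gradient (fun x => Ψ x * χ x) x = Ψ x • gradient χ x + χ x • gradient Ψ x := fun x => 
    gradient_mul (differentiableAt_of_smooth h.mult.smooth x) (differentiableAt_of_smooth hχs x)
  refine ⟨fun x => Ψ x * χ x, h.mult.mul hχm, ?_, ?_⟩
  · intro x hx
    rw [hg]
    by_cases hxδ : x ∈ ball (latt z) δ
    · have h1 : χ x = 1 := χ.one_of_mem_closedBall (ball_subset_closedBall hxδ)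
      have h2 : gradient χ x = 0 := gradient_zero_of_max hχ1 h1
      simp [h1, h2]
    · have hx' : ∀ y, x ∉ ball (latt y) δ := by
        intro y
        by_cases hyz : y = z
        · rwa [hyz]
        · exact notMem_ball_of_cell hx hyz hδ.le
      simp [h.zero x hx', h.grad_zero hx']
  · intro x hx
    have h1 : χ x = 0 := χ.zero_of_le_dist (not_lt.1 hx)
    have h2 : gradient χ x = 0 := gradient_zero_of_min hχ0 h1
    rw [hg]; simp [h1, h2]

/-- energy density of the cut-off function -/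
noncomputable def dens (Ψ : E N → ℝ) (u : E N → ℝ) (g : E N → E N) (x : E N) : ℝ := 
  ‖Ψ x • g x + u x • gradient Ψ x‖^2 + (Ψ x * u x)^2

lemma IsCut.zero_of_not_cell {Ψ : E N → ℝ} {δ r : ℝ} (h : IsCut Ψ δ r) (hδ : δ < 1/2) {x : E N} (hx : ∀ z, x ∉ cell z) : 
    Ψ x = 0 ∧ gradient Ψ x = 0 := by
  have : ∀ y, x ∉ ball (latt y) δ := fun y hy => hx y (ball_subset_ball hδ.le hy)
  exact ⟨h.zero x this, h.grad_zero this⟩

lemma integrable_dens {Ψ : E N → ℝ} {u : E N → ℝ} {g : E N → E N} (hΨ : IsMult Ψ) (hu : IsH1 u g) : 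
    Integrable (dens Ψ u g) := (hu.mul hΨ).integrable

lemma integrable_mul_pow {p : ℝ} (hp : 2 < p) {u : E N → ℝ} {Ψ : E N → ℝ} (hu : MemLp u 2 volume) (hi : Integrable (fun x => |u x|^p)) 
    (hΨ : Continuous Ψ) (h0 : ∀ x, 0 ≤ Ψ x) (h1 : ∀ x, Ψ x ≤ 1) : 
    Integrable (fun x => |Ψ x * u x|^p) := by
  have hm : AEStronglyMeasurable (fun x => |Ψ x * u x|^p) volume := by
    have : AEStronglyMeasurable (fun x => Ψ x * u x) volume := hΨ.aestronglyMeasurable.mul hu.1
    exact (this.aemeasurable.abs.pow_const p).aestronglyMeasurable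
  refine hi.mono' hm (Eventually.of_forall fun x => ?_)
  rw [Real.norm_eq_abs, abs_of_nonneg (by positivity), abs_mul, abs_of_nonneg (h0 x)]
  refine Real.rpow_le_rpow (mul_nonneg (h0 x) (abs_nonneg _)) ?_ (by linarith)
  have := h1 x
  nlinarith [abs_nonneg (u x)]

/-- least energy inequality on a cell -/
lemma cell_ineq {p ε : ℝ} (hp : 2 < p) {u : E N → ℝ} {g : E N → E N} 
    (h : IsLeastEnergySolution p ε u g) {Ψ : E N → ℝ} {δ r : ℝ} (hΨ : IsCut Ψ δ r) (hδ0 : 0 < δ) (hδ : δ < 1/2) (z : Fin N → ℤ) : 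
    (∫ x in cell z, Q ε x * |Ψ x * u x|^p) * (normSq u g)^((p-2)/2) ≤ (∫ x in cell z, dens Ψ u g x)^(p/2) := by
  obtain ⟨ψ, hψm, hψ1, hψ0⟩ := cell_fun hΨ hδ0 hδ z
  have h1 := least_energy_ineq hp h (h.1.1.mul hψm)
  have e1 : normSq (fun x => ψ x * u x) (fun x => ψ x • g x + u x • gradient ψ x) = ∫ x in cell z, dens Ψ u g x := by
    rw [← integral_indicator (cell_meas z)]
    unfold normSq
    congr 1
    funext x
    beta_reduce
    by_cases hx : x ∈ cell z
    · rw [indicator_of_mem hx, (hψ1 x hx).1, (hψ1 x hx).2]; rfl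
    · rw [indicator_of_notMem hx, (hψ0 x hx).1, (hψ0 x hx).2]; simp
  have e2 : ∫ x, Q ε x * |ψ x * u x|^p = ∫ x in cell z, Q ε x * |Ψ x * u x|^p := by
    rw [← integral_indicator (cell_meas z)]
    congr 1
    funext x
    by_cases hx : x ∈ cell z
    · rw [indicator_of_mem hx, (hψ1 x hx).1]
    · rw [indicator_of_notMem hx, (hψ0 x hx).1]; simp [Real.zero_rpow (by linarith : p ≠ 0)]
  rw [e1, e2] at h1
  exact h1

noncomputable def C1 (N : ℕ) (p : ℝ) : ℝ := 2^N * ((2^N)⁻¹ * 4)^(p/2)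

lemma C1_pos (N : ℕ) (p : ℝ) : 0 < C1 N p := by unfold C1; positivity

/-- least energy inequality for the rescaled competitor -/
lemma cell_ineq2 {p ε : ℝ} (hp : 2 < p) (hε : 0 < ε) (hε2 : 2 * ε ≤ 1/2) {u : E N → ℝ} {g : E N → E N} 
    (h : IsLeastEnergySolution p ε u g) {Ψ : E N → ℝ} {δ r : ℝ} (hΨ : IsCut Ψ δ r) (hδ0 : 0 < δ) (hδ : δ < 1/2) (z : Fin N → ℤ) : 
    (∫ x in cell z, Q (2*ε) x * |Ψ x * u x|^p) * (normSq u g)^((p-2)/2) ≤ C1 N p * (∫ x in cell z, dens Ψ u g x)^(p/2) := by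
  obtain ⟨ψ, hψm, hψ1, hψ0⟩ := cell_fun hΨ hδ0 hδ z
  have hw := (h.1.1.mul hψm)
  set w : E N → ℝ := fun x => ψ x * u x with hwdef
  set k : E N → E N := fun x => ψ x • g x + u x • gradient ψ x with hkdef
  have h1 := least_energy_ineq hp h (hw.affine (-latt z) 2 two_pos)
  have e1 : normSq w k = ∫ x in cell z, dens Ψ u g x := by
    rw [← integral_indicator (cell_meas z)]
    unfold normSq
    congr 1
    funext x
    by_cases hx : x ∈ cell z
    · rw [indicator_of_mem hx, hwdef, hkdef]; beta_reduce; rw [(hψ1 x hx).1, (hψ1 x hx).2]; rfl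
    · rw [indicator_of_notMem hx, hwdef, hkdef]; beta_reduce; rw [(hψ0 x hx).1, (hψ0 x hx).2]; simp
  have e2 : normSq (fun x => w (-latt z + (2:ℝ) • x)) (fun x => (2:ℝ) • k (-latt z + (2:ℝ) • x)) ≤ 
      ((2^N)⁻¹ * 4) * ∫ x in cell z, dens Ψ u g x := by
    rw [← e1]
    unfold normSq
    have := integral_affine (fun x => ‖(2:ℝ) • k x‖^2 + (w x)^2) (-latt z) 2 two_pos
    beta_reduce at this
    rw [this, mul_assoc]
    have hnn : ∀ x, 0 ≤ ‖(2:ℝ) • k x‖^2 + (w x)^2 := fun x => by positivity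
    have h4 : ∫ x, (‖(2:ℝ) • k x‖^2 + (w x)^2) ≤ 4 * ∫ x, (‖k x‖^2 + (w x)^2) := by
      rw [← integral_const_mul]
      refine integral_mono_of_nonneg (Eventually.of_forall hnn) (hw.integrable.const_mul _)
        (Eventually.of_forall fun x => ?_)
      beta_reduce
      rw [norm_smul, mul_pow]
      norm_num
      nlinarith [sq_nonneg (w x)]
    exact mul_le_mul_of_nonneg_left h4 (by positivity)
  have e3 : ∫ x, Q ε x * |w (-latt z + (2:ℝ) • x)|^p = (2^N)⁻¹ * ∫ x in cell z, Q (2*ε) x * |Ψ x * u x|^p := by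
    have := integral_affine (fun x => Q ε ((1/2:ℝ) • (x + latt z)) * |w x|^p) (-latt z) 2 two_pos
    beta_reduce at this
    have e4 : ∀ x : E N, (1/2:ℝ) • (-latt z + (2:ℝ) • x + latt z) = x := by
      intro x
      rw [show -latt z + (2:ℝ) • x + latt z = (2:ℝ) • x by abel, smul_smul]
      norm_num
    simp only [e4] at this
    rw [this]
    congr 1
    rw [← integral_indicator (cell_meas z)]
    congr 1
    funext x
    by_cases hx : x ∈ cell z
    · rw [indicator_of_mem hx, hwdef]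
      beta_reduce
      rw [(hψ1 x hx).1]
      congr 1
      have hd : dist ((1/2:ℝ) • (x + latt z)) (latt z) = (1/2) * dist x (latt z) := by
        rw [dist_eq_norm, dist_eq_norm]
        have : (1/2:ℝ) • (x + latt z) - latt z = (1/2:ℝ) • (x - latt z) := by
          rw [smul_add, smul_sub]
          have : (latt z : E N) = (1/2:ℝ) • latt z + (1/2:ℝ) • latt z := by
            rw [← add_smul]; norm_num
          nth_rw 2 [this]
          abel
        rw [this, norm_smul]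
        norm_num
      have hx' : (1/2:ℝ) • (x + latt z) ∈ cell z := by
        unfold cell at hx ⊢
        rw [mem_ball] at hx ⊢
        rw [hd]
        have := dist_nonneg (x := x) (y := latt z)
        linarith
      rw [Q_cell hx' (by linarith), Q_cell hx hε2]
      by_cases hc : x ∈ ball (latt z) (2 * ε)
      · rw [if_pos hc, if_pos]
        rw [mem_ball] at hc ⊢
        rw [hd]; linarith
      · rw [if_neg hc, if_neg]
        rw [mem_ball] at hc ⊢
        rw [hd]; linarith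
    · rw [indicator_of_notMem hx, hwdef]
      beta_reduce
      rw [(hψ0 x hx).1]; simp [Real.zero_rpow (by linarith : p ≠ 0)]
  rw [e3] at h1
  have h2 := h1.trans (Real.rpow_le_rpow (normSq_nonneg _ _) e2 (by linarith))
  have ha : 0 ≤ ∫ x in cell z, dens Ψ u g x := integral_nonneg fun x => by unfold dens; positivity
  rw [Real.mul_rpow (by positivity) ha] at h2
  unfold C1
  have h3 := mul_le_mul_of_nonneg_left h2 (show (0:ℝ) ≤ 2^N by positivity)
  calc (∫ x in cell z, Q (2*ε) x * |Ψ x * u x|^p) * (normSq u g)^((p-2)/2) 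
      = 2^N * ((2^N)⁻¹ * (∫ x in cell z, Q (2*ε) x * |Ψ x * u x|^p) * (normSq u g)^((p-2)/2)) := by
        field_simp
    _ ≤ _ := h3
    _ = _ := by ring

end Pool.Agent.Results.MP_9ab776_an
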