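import Pool.Agent.Hhelper28.Core.Hardy

open MeasureTheory Set Filter Topology Metric
open scoped ContDiff

namespace Pool.Agent.Results.MP_9ab776_an

variable {N : ℕ}

lemma sin_sq_shift (t : ℝ) (z : ℤ) : Real.sin (Real.pi * t)^2 = Real.sin (Real.pi * (t - z))^2 := by
  have : Real.pi * (t - z) = Real.pi * t - z * Real.pi := by ring
  rw [this, Real.sin_sub_int_mul_pi, mul_pow]
  rcases Int.even_or_odd z with h | h <;> simp [h.neg_one_zpow]

lemma latt_apply (y : Fin N → ℤ) (i : Fin N) : (latt y : E N) i = (y i : ℝ) := rfl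

lemma dist_sq (x z : E N) : dist x z ^ 2 = ∑ i, (x i - z i)^2 := by
  rw [EuclideanSpace.dist_eq, Real.sq_sqrt (Finset.sum_nonneg fun i _ => sq_nonneg _)]
  refine Finset.sum_congr rfl fun i _ => ?_
  rw [Real.dist_eq, sq_abs]

lemma rho_near {x : E N} {y : Fin N → ℤ} {r : ℝ} (hx : x ∈ ball (latt y) r) : rho x ≤ Real.pi^2 * r^2 := by
  have h1 : dist x (latt y) ^ 2 ≤ r^2 := pow_le_pow_left₀ dist_nonneg (mem_ball.1 hx).le 2
  rw [dist_sq] at h1
  calc rho x ≤ Real.pi^2 * ∑ i, (x i - (latt y : E N) i)^2 := by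
        unfold rho
        rw [Finset.mul_sum]
        refine Finset.sum_le_sum fun i _ => ?_
        rw [sin_sq_shift (x i) (y i), latt_apply, ← mul_pow]
        exact Real.sin_sq_le_sq
    _ ≤ Real.pi^2 * r^2 := by gcongr

lemma near_lattice {x : E N} {δ : ℝ} (hδ : 0 < δ) (hx : rho x < 4 * δ^2) : ∃ y : Fin N → ℤ, x ∈ ball (latt y) δ := by
  refine ⟨fun i => round (x i), ?_⟩
  have h1 : 4 * dist x (latt fun i => round (x i))^2 ≤ rho x := by
    rw [dist_sq, Finset.mul_sum]
    unfold rho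
    refine Finset.sum_le_sum fun i _ => ?_
    rw [sin_sq_shift (x i) (round (x i)), latt_apply]
    set t := x i - round (x i) with ht
    have h2 : |t| ≤ 1/2 := abs_sub_round (x i)
    have h3 : 2 * |t| ≤ Real.sin (Real.pi * |t|) := by
      have := Real.mul_le_sin (x := Real.pi * |t|) (by positivity) (by nlinarith [Real.pi_pos])
      calc 2 * |t| = 2 / Real.pi * (Real.pi * |t|) := by field_simp
        _ ≤ _ := this
    have h4 : Real.sin (Real.pi * |t|)^2 = Real.sin (Real.pi * t)^2 := by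
      rcases abs_cases t with ⟨h, _⟩ | ⟨h, _⟩
      · rw [h]
      · rw [h, mul_neg, Real.sin_neg, neg_sq]
    rw [← h4, ← sq_abs t]
    calc 4 * |t|^2 = (2 * |t|)^2 := by ring
      _ ≤ _ := pow_le_pow_left₀ (by positivity) h3 2
  rw [mem_ball]
  have h2 : dist x (latt fun i => round (x i))^2 < δ^2 := by linarith
  exact lt_of_pow_lt_pow_left₀ 2 hδ.le h2

lemma exists_deriv_bound : ∃ C : ℝ, 0 < C ∧ ∀ t, |deriv Real.smoothTransition t| ≤ C := by
  have hc : Continuous (deriv Real.smoothTransition) := 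
    (Real.smoothTransition.contDiff (n := 1)).continuous_deriv le_rfl
  obtain ⟨C, hC⟩ := (isCompact_Icc (a := (0:ℝ)) (b := 1)).exists_bound_of_continuousOn hc.continuousOn
  refine ⟨|C| + 1, by positivity, fun t => ?_⟩
  by_cases h0 : t < 0
  · have : Real.smoothTransition =ᶠ[𝓝 t] fun _ => 0 := by
      filter_upwards [Iio_mem_nhds h0] with s hs
      exact Real.smoothTransition.zero_of_nonpos (le_of_lt hs)
    rw [this.deriv_eq]; simp; positivity
  by_cases h1 : 1 < t
  · have : Real.smoothTransition =ᶠ[𝓝 t] fun _ => 1 := by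
      filter_upwards [Ioi_mem_nhds h1] with s hs
      exact Real.smoothTransition.one_of_one_le (le_of_lt hs)
    rw [this.deriv_eq]; simp; positivity
  have := hC t ⟨not_lt.1 h0, not_lt.1 h1⟩
  rw [Real.norm_eq_abs] at this
  linarith [le_abs_self C]

lemma memLp_mult_grad {Ψ : E N → ℝ} (hΨ : IsMult Ψ) {u : E N → ℝ} (hu : MemLp u 2 volume) : 
    Integrable (fun x => ‖gradient Ψ x‖^2 * (u x)^2) := by
  obtain ⟨D, hD⟩ := hΨ.bddGrad
  have := integrable_normsq (memLp_smul' (continuous_gradient hΨ.smooth) hD hu)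
  refine this.congr (Eventually.of_forall fun x => ?_)
  beta_reduce
  rw [norm_smul, mul_pow, Real.norm_eq_abs, sq_abs, mul_comm]

lemma exists_cutoff (hN : 2 ≤ N) {δ η : ℝ} (hδ : 0 < δ) (hη : 0 < η) : 
    ∃ (Ψ : E N → ℝ) (r : ℝ), IsMult Ψ ∧ 0 < r ∧ (∀ x, 0 ≤ Ψ x) ∧ (∀ x, Ψ x ≤ 1) ∧ 
      (∀ x y, x ∈ ball (latt y) r → Ψ x = 1) ∧ (∀ x, (∀ y, x ∉ ball (latt y) δ) → Ψ x = 0) ∧ 
      ∀ u g, IsH1 u g → ∫ x, ‖gradient Ψ x‖^2 * (u x)^2 ≤ η * normSq u g := by
  obtain ⟨C, hC0, hC⟩ := exists_deriv_bound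
  -- parameters
  obtain ⟨a, ha, ha'⟩ : ∃ a : ℝ, 0 < a ∧ C^2 * a^2 * (4 * Real.pi^2) * 8 ≤ η := by
    refine ⟨Real.sqrt (η / (C^2 * (4 * Real.pi^2) * 8)), by positivity, ?_⟩
    rw [Real.sq_sqrt (by positivity)]
    apply le_of_eq
    field_simp
  set b := Real.log (Real.log (KK N / (4 * δ^2))) with hb
  set τ := min 1 (KK N / (2 * Real.exp (Real.exp (b + 1/a)))) with hτ
  have hKK := KK_pos N
  have hτ0 : 0 < τ := lt_min one_pos (by positivity)
  have hτ1 : τ ≤ 1 := min_le_left _ _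
  have hell1 : ∀ x : E N, 1 ≤ ell τ x := fun x => one_le_ell hτ0 hτ1 x
  have hellc : ContDiff ℝ ∞ (ell τ : E N → ℝ) := contDiff_ell hτ0
  set Λ : E N → ℝ := fun x => a * (Real.log (ell τ x) - b) with hΛ
  have hΛc : ContDiff ℝ ∞ Λ := 
    contDiff_const.mul ((hellc.log (fun x => by have := hell1 x; positivity)).sub contDiff_const)
  have hΛd : ∀ x, HasFDerivAt Λ (a • ((ell τ x)⁻¹ • (-(rho x + τ)⁻¹ • drho x))) x := by
    intro x
    have h1 : ell τ x ≠ 0 := by have := hell1 x; positivity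
    exact (((hasFDerivAt_ell hτ0 x).log h1).sub_const b).const_mul a
  set Ψ : E N → ℝ := fun x => Real.smoothTransition (Λ x) with hΨ
  have hΨc : ContDiff ℝ ∞ Ψ := Real.smoothTransition.contDiff.comp hΛc
  have hΨd : ∀ x, HasFDerivAt Ψ (deriv Real.smoothTransition (Λ x) • (a • ((ell τ x)⁻¹ • (-(rho x + τ)⁻¹ • drho x)))) x := by
    intro x
    have h1 : HasDerivAt Real.smoothTransition (deriv Real.smoothTransition (Λ x)) (Λ x) := 
      ((Real.smoothTransition.contDiff (n := 1)).differentiable (by simp)).differentiableAt.hasDerivAt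
    exact h1.comp_hasFDerivAt x (hΛd x)
  have hgrad : ∀ x, ‖gradient Ψ x‖^2 ≤ C^2 * a^2 * (4 * Real.pi^2) * wt τ x := by
    intro x
    have h0 := rho_nonneg x
    have h1 : 0 < rho x + τ := by linarith
    have h2 : 0 < ell τ x := by have := hell1 x; linarith
    rw [norm_gradient_sq]
    have e : ∀ i, (fderiv ℝ Ψ x (EuclideanSpace.single i 1))^2 = 
        ((deriv Real.smoothTransition (Λ x))^2 * (a^2 * ((ell τ x)⁻¹^2 * (rho x + τ)⁻¹^2))) * 
          (Real.pi * Real.sin (2 * (Real.pi * x i)))^2 := by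
      intro i
      rw [(hΨd x).fderiv]
      simp only [smul_apply, drho_single, smul_eq_mul]
      generalize (rho x + τ)⁻¹ = s
      ring
    simp only [e]
    rw [← Finset.mul_sum]
    have h3 := sum_sin_sq_le x
    have h4 : (deriv Real.smoothTransition (Λ x))^2 ≤ C^2 := by
      rw [← sq_abs]; exact pow_le_pow_left₀ (abs_nonneg _) (hC _) 2
    calc ((deriv Real.smoothTransition (Λ x))^2 * (a^2 * ((ell τ x)⁻¹^2 * (rho x + τ)⁻¹^2))) * 
          ∑ i, (Real.pi * Real.sin (2 * (Real.pi * x i)))^2 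
        ≤ (C^2 * (a^2 * ((ell τ x)⁻¹^2 * (rho x + τ)⁻¹^2))) * (4 * Real.pi^2 * rho x) := by
          gcongr
      _ ≤ (C^2 * (a^2 * ((ell τ x)⁻¹^2 * (rho x + τ)⁻¹^2))) * (4 * Real.pi^2 * (rho x + τ)) := by
          gcongr; linarith
      _ = C^2 * a^2 * (4 * Real.pi^2) * wt τ x := by
          unfold wt; field_simp
  have hΨ0 : ∀ x, 0 ≤ Ψ x := fun x => Real.smoothTransition.nonneg _
  have hΨ1 : ∀ x, Ψ x ≤ 1 := fun x => Real.smoothTransition.le_one _
  have hmult : IsMult Ψ := by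
    refine ⟨hΨc, ⟨1, fun x => by rw [abs_of_nonneg (hΨ0 x)]; exact hΨ1 x⟩, 
      ⟨Real.sqrt (C^2 * a^2 * (4 * Real.pi^2) * τ⁻¹), fun x => ?_⟩⟩
    refine Real.le_sqrt_of_sq_le ((hgrad x).trans ?_)
    have := wt_le hτ0 hτ1 x
    gcongr
  refine ⟨Ψ, τ / Real.pi, hmult, by positivity, hΨ0, hΨ1, ?_, ?_, ?_⟩
  · intro x y hx
    have h1 := rho_near hx
    have h2 : rho x ≤ τ := by
      refine h1.trans ?_
      rw [div_pow, mul_div_cancel₀ _ (by positivity)]
      nlinarith
    have h3 : rho x + τ ≤ KK N / Real.exp (Real.exp (b + 1/a)) := by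
      have : τ ≤ KK N / (2 * Real.exp (Real.exp (b + 1/a))) := min_le_right _ _
      have e : KK N / Real.exp (Real.exp (b + 1/a)) = 2 * (KK N / (2 * Real.exp (Real.exp (b + 1/a)))) := by
        field_simp
      rw [e]; linarith
    have h0 : 0 < rho x + τ := by have := rho_nonneg x; linarith
    apply Real.smoothTransition.one_of_one_le
    have h4 : Real.exp (b + 1/a) ≤ ell τ x := by
      unfold ell
      rw [Real.le_log_iff_exp_le (by positivity), le_div_iff₀ h0]
      rw [le_div_iff₀ (Real.exp_pos _)] at h3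
      linarith
    have h5 : b + 1/a ≤ Real.log (ell τ x) := by
      rw [Real.le_log_iff_exp_le (by have := hell1 x; positivity)]
      exact h4
    have h6 : a * (1/a) = 1 := by field_simp
    rw [hΛ]
    beta_reduce
    nlinarith
  · intro x hx
    have h1 : 4 * δ^2 ≤ rho x := by
      by_contra h
      obtain ⟨y, hy⟩ := near_lattice hδ (not_le.1 h)
      exact hx y hy
    apply Real.smoothTransition.zero_of_nonpos
    have h2 : Real.log (ell τ x) ≤ b := by
      rw [hb]
      apply Real.log_le_log (by have := hell1 x; positivity)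
      unfold ell
      apply Real.log_le_log (by have := rho_nonneg x; positivity)
      gcongr
      linarith
    rw [hΛ]
    beta_reduce
    nlinarith
  · intro u g hug
    obtain ⟨hi, hh⟩ := hardy hτ0 hτ1 hN hug
    calc ∫ x, ‖gradient Ψ x‖^2 * (u x)^2 ≤ ∫ x, C^2 * a^2 * (4 * Real.pi^2) * (wt τ x * (u x)^2) := by
          refine integral_mono (memLp_mult_grad hmult hug.memLp) (hi.const_mul _) fun x => ?_
          beta_reduce
          have := mul_le_mul_of_nonneg_right (hgrad x) (sq_nonneg (u x))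
          linarith
      _ = C^2 * a^2 * (4 * Real.pi^2) * ∫ x, wt τ x * (u x)^2 := integral_const_mul _ _
      _ ≤ C^2 * a^2 * (4 * Real.pi^2) * (8 * normSq u g) := by gcongr
      _ = (C^2 * a^2 * (4 * Real.pi^2) * 8) * normSq u g := by ring
      _ ≤ η * normSq u g := by
          have := normSq_nonneg u g
          gcongr

end Pool.Agent.Results.MP_9ab776_an
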