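import Mathlib

open MeasureTheory Set Filter Topology Metric
open scoped ContDiff

namespace Pool.Agent.Results.MP_9ab776_an

/-- Euclidean space `ℝ^N`. -/
abbrev E (N : ℕ) : Type := EuclideanSpace ℝ (Fin N)

/-- `u` belongs to `H¹(ℝ^N)` and `g` is its weak gradient: `(u, g)` is an `L²` limit of pairs
`(φ, ∇φ)` with `φ` smooth and compactly supported. -/
structure IsH1 {N : ℕ} (u : E N → ℝ) (g : E N → E N) : Prop where
  memLp : MemLp u 2 volume
  memLp_grad : MemLp g 2 volume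
  approx : ∀ δ : ℝ, 0 < δ → ∃ φ : E N → ℝ, ContDiff ℝ ∞ φ ∧ HasCompactSupport φ ∧
    ∫ x, ((u x - φ x) ^ 2 + ‖g x - gradient φ x‖ ^ 2) < δ

/-- The lattice point with integer coordinates `y`. -/
noncomputable def latt {N : ℕ} (y : Fin N → ℤ) : E N := WithLp.toLp 2 (fun i => (y i : ℝ))

open Classical in
/-- `Q_ε = 1` on the union of the balls `B_ε(y)`, `y ∈ ℤ^N`, and `-1` elsewhere. -/
noncomputable def Q {N : ℕ} (ε : ℝ) (x : E N) : ℝ :=
  if ∃ y : Fin N → ℤ, x ∈ ball (latt y) ε then 1 else -1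

/-- The squared norm of `H¹(ℝ^N)`. -/
noncomputable def normSq {N : ℕ} (u : E N → ℝ) (g : E N → E N) : ℝ :=
  ∫ x, (‖g x‖ ^ 2 + (u x) ^ 2)

/-- The energy functional `J_ε`. -/
noncomputable def energy {N : ℕ} (p ε : ℝ) (u : E N → ℝ) (g : E N → E N) : ℝ :=
  (1 / 2) * normSq u g - (1 / p) * ∫ x, Q ε x * |u x| ^ p

/-- Membership in the Nehari manifold. -/
def IsNehari {N : ℕ} (p ε : ℝ) (u : E N → ℝ) (g : E N → E N) : Prop :=
  IsH1 u g ∧ ¬ (u =ᵐ[volume] 0) ∧ normSq u g = ∫ x, Q ε x * |u x| ^ p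

/-- The least energy `c_ε`, the infimum of `J_ε` over the Nehari manifold. -/
noncomputable def leastEnergy (N : ℕ) (p ε : ℝ) : ℝ :=
  sInf {t : ℝ | ∃ (u : E N → ℝ) (g : E N → E N), IsNehari p ε u g ∧ t = energy p ε u g}

/-- Weak solutions of `-Δu + u = Q_ε |u|^{p-2} u` in `H¹(ℝ^N)`. -/
def IsWeakSolution {N : ℕ} (p ε : ℝ) (u : E N → ℝ) (g : E N → E N) : Prop :=
  IsH1 u g ∧ ∀ (v : E N → ℝ) (h : E N → E N), IsH1 v h →
    ∫ x, (inner ℝ (g x) (h x) + u x * v x) = ∫ x, Q ε x * |u x| ^ (p - 2) * u x * v x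

/-- Least energy solutions: weak solutions in the Nehari manifold with energy `c_ε`. -/
def IsLeastEnergySolution {N : ℕ} (p ε : ℝ) (u : E N → ℝ) (g : E N → E N) : Prop :=
  IsWeakSolution p ε u g ∧ IsNehari p ε u g ∧ energy p ε u g = leastEnergy N p ε

end Pool.Agent.Results.MP_9ab776_an
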