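import Pool.Agent.Hhelper28.Core.Rho

open MeasureTheory Set Filter Topology Metric
open scoped ContDiff

namespace Pool.Agent.Results.MP_9ab776_an

variable {N : ℕ}

lemma integrable_of_cc {f : E N → ℝ} (hf : Continuous f) (hc : HasCompactSupport f) : Integrable f volume :=
  hf.integrable_of_hasCompactSupport hc

/-- Hardy's inequality for test functions -/
lemma hardy_smooth {τ : ℝ} (hτ : 0 < τ) (hτ1 : τ ≤ 1) (hN : 2 ≤ N) {φ : E N → ℝ} (hφ : ContDiff ℝ ∞ φ)
    (hc : HasCompactSupport φ) : ∫ x, wt τ x * (φ x)^2 ≤ 2 * normSq φ (gradient φ) := by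
  have hcφ : Continuous φ := hφ.continuous
  have hcW : Continuous (wt τ : E N → ℝ) := continuous_wt hτ hτ1
  have hcd : ∀ i : Fin N, Continuous (fun x => fderiv ℝ φ x (EuclideanSpace.single i 1)) := fun i => 
    (hφ.continuous_fderiv (by simp)).clm_apply continuous_const
  have hcF : ∀ i : Fin N, Continuous (FF τ i : E N → ℝ) := fun i => (contDiff_FF hτ hτ1 i).continuous
  have hcdF : ∀ i : Fin N, Continuous (fun x : E N => fderiv ℝ (FF τ i) x (EuclideanSpace.single i 1)) := fun i =>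
    ((contDiff_FF hτ hτ1 i).continuous_fderiv (by simp)).clm_apply continuous_const
  have hφ2 : ContDiff ℝ ∞ (fun x => φ x ^ 2) := hφ.pow 2
  have hφ2c : HasCompactSupport (fun x => φ x ^ 2) := by
    have : (fun x => φ x ^ 2) = (fun t : ℝ => t ^ 2) ∘ φ := rfl
    rw [this]
    exact hc.comp_left (by simp)
  have hd2 : ∀ x i, fderiv ℝ (fun x => φ x ^ 2) x (EuclideanSpace.single i 1) = 
      2 * φ x * fderiv ℝ φ x (EuclideanSpace.single i 1) := by
    intro x i
    have := ((differentiableAt_of_smooth hφ x).hasFDerivAt.pow 2).fderiv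
    rw [this]
    simp
  have hci : ∀ i : Fin N, HasCompactSupport (fun x => fderiv ℝ (fun x => φ x ^ 2) x (EuclideanSpace.single i 1)) := fun i =>
    hφ2c.fderiv_apply ℝ _
  have hcc2 : ∀ i : Fin N, Continuous (fun x => fderiv ℝ (fun x => φ x ^ 2) x (EuclideanSpace.single i 1)) := fun i => 
    (hφ2.continuous_fderiv (by simp)).clm_apply continuous_const
  have hcφ2 : Continuous (fun x => φ x ^ 2) := by fun_prop
  -- integration by parts
  have hibp : ∀ i : Fin N, ∫ x, FF τ i x * (2 * φ x * fderiv ℝ φ x (EuclideanSpace.single i 1)) = 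
      - ∫ x, fderiv ℝ (FF τ i) x (EuclideanSpace.single i 1) * (φ x)^2 := by
    intro i
    have := integral_mul_fderiv_eq_neg_fderiv_mul_of_integrable (μ := volume) (f := FF τ i) (g := fun x => φ x ^ 2)
      (v := EuclideanSpace.single i (1:ℝ)) ?_ ?_ ?_ ?_ ?_
    · simpa only [hd2] using this
    · exact integrable_of_cc ((hcdF i).mul hcφ2) hφ2c.mul_left
    · exact integrable_of_cc ((hcF i).mul (hcc2 i)) (hci i).mul_left
    · exact integrable_of_cc ((hcF i).mul hcφ2) hφ2c.mul_left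
    · intro x _; exact differentiableAt_of_smooth (contDiff_FF hτ hτ1 i) x
    · intro x _; exact differentiableAt_of_smooth hφ2 x
  have hint1 : ∀ i : Fin N, Integrable (fun x => FF τ i x * (2 * φ x * fderiv ℝ φ x (EuclideanSpace.single i 1))) := by
    intro i
    refine integrable_of_cc (by have := hcF i; have := hcd i; fun_prop) ?_
    have : HasCompactSupport (fun x => 2 * φ x * fderiv ℝ φ x (EuclideanSpace.single i 1)) := 
      (hc.mul_left (f := fun _ => (2:ℝ))).mul_right
    exact this.mul_left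
  have hint2 : ∀ i : Fin N, Integrable (fun x => fderiv ℝ (FF τ i) x (EuclideanSpace.single i 1) * (φ x)^2) := 
    fun i => integrable_of_cc ((hcdF i).mul hcφ2) hφ2c.mul_left
  have h1 : ∫ x, (∑ i, fderiv ℝ (FF τ i) x (EuclideanSpace.single i 1)) * (φ x)^2 = 
      - ∫ x, ∑ i, FF τ i x * (2 * φ x * fderiv ℝ φ x (EuclideanSpace.single i 1)) := by
    simp only [Finset.sum_mul]
    rw [integral_finsetSum _ (fun i _ => hint1 i), integral_finsetSum _ (fun i _ => hint2 i), ← Finset.sum_neg_distrib]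
    refine Finset.sum_congr rfl fun i _ => ?_
    rw [hibp i, neg_neg]
  have hiW : Integrable (fun x => wt τ x * (φ x)^2) := integrable_of_cc (hcW.mul hcφ2) hφ2c.mul_left
  have hiφ : Integrable (fun x => (φ x)^2) := integrable_of_cc hcφ2 hφ2c
  have hiG : Integrable (fun x => ‖gradient φ x‖^2) := integrable_normsq (memLp_gradient_smooth hφ hc)
  have h2 : 2 * Real.pi^2 * (∫ x, wt τ x * (φ x)^2) - 2 * Real.pi^2 * (∫ x, (φ x)^2) ≤ 
      ∫ x, (∑ i, fderiv ℝ (FF τ i) x (EuclideanSpace.single i 1)) * (φ x)^2 := by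
    rw [← integral_const_mul, ← integral_const_mul, ← integral_sub (hiW.const_mul _) (hiφ.const_mul _)]
    refine integral_mono ((hiW.const_mul _).sub (hiφ.const_mul _)) ?_ fun x => ?_
    · simp only [Finset.sum_mul]
      exact integrable_finsetSum _ fun i _ => hint2 i
    · have := mul_le_mul_of_nonneg_right (div_FF hτ hτ1 hN x) (sq_nonneg (φ x))
      beta_reduce
      linarith
  have h3 : - ∫ x, ∑ i, FF τ i x * (2 * φ x * fderiv ℝ φ x (EuclideanSpace.single i 1)) ≤ 
      (∫ x, ‖gradient φ x‖^2) + Real.pi^2 * ∫ x, wt τ x * (φ x)^2 := by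
    rw [← integral_neg, ← integral_const_mul, ← integral_add hiG (hiW.const_mul _)]
    refine integral_mono (integrable_finsetSum _ fun i _ => hint1 i).neg (hiG.add (hiW.const_mul _)) fun x => ?_
    beta_reduce
    rw [norm_gradient_sq, ← Finset.sum_neg_distrib]
    have h4 := mul_le_mul_of_nonneg_right (sum_FF_sq hτ hτ1 x) (sq_nonneg (φ x))
    rw [Finset.sum_mul] at h4
    have h5 : ∑ i, -(FF τ i x * (2 * φ x * fderiv ℝ φ x (EuclideanSpace.single i 1))) ≤ 
        ∑ i, (fderiv ℝ φ x (EuclideanSpace.single i 1))^2 + ∑ i, (FF τ i x)^2 * (φ x)^2 := by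
      rw [← Finset.sum_add_distrib]
      refine Finset.sum_le_sum fun i _ => ?_
      nlinarith [sq_nonneg (fderiv ℝ φ x (EuclideanSpace.single i 1) + FF τ i x * φ x)]
    linarith
  have h6 : normSq φ (gradient φ) = (∫ x, ‖gradient φ x‖^2) + ∫ x, (φ x)^2 := integral_add hiG hiφ
  have hG0 : 0 ≤ ∫ x, ‖gradient φ x‖^2 := integral_nonneg fun x => by positivity
  have hφ0 : 0 ≤ ∫ x, (φ x)^2 := integral_nonneg fun x => by positivity
  have hW0 : 0 ≤ ∫ x, wt τ x * (φ x)^2 := integral_nonneg fun x => by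
    have := wt_pos hτ hτ1 x; positivity
  have hpi : 1 ≤ Real.pi^2 := by nlinarith [Real.pi_gt_three]
  rw [h6]
  rw [h1] at h2
  have h7 := h2.trans h3
  have h8 : Real.pi^2 * (∫ x, wt τ x * (φ x)^2) ≤ Real.pi^2 * (2 * ((∫ x, ‖gradient φ x‖^2) + ∫ x, (φ x)^2)) := by
    nlinarith
  exact le_of_mul_le_mul_left h8 (by positivity)

/-- Hardy's inequality on `H¹` -/
lemma hardy {τ : ℝ} (hτ : 0 < τ) (hτ1 : τ ≤ 1) (hN : 2 ≤ N) {u : E N → ℝ} {g : E N → E N} (h : IsH1 u g) :
    Integrable (fun x => wt τ x * (u x)^2) ∧ ∫ x, wt τ x * (u x)^2 ≤ 8 * normSq u g := by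
  have hcW : Continuous (wt τ : E N → ℝ) := continuous_wt hτ hτ1
  have hbd : ∀ {v : E N → ℝ}, MemLp v 2 volume → Integrable (fun x => wt τ x * (v x)^2) := by
    intro v hv
    refine Integrable.bdd_mul (c := τ⁻¹) (integrable_sq hv) hcW.aestronglyMeasurable 
      (Eventually.of_forall fun x => ?_)
    rw [Real.norm_eq_abs, abs_of_pos (wt_pos hτ hτ1 x)]
    exact wt_le hτ hτ1 x
  refine ⟨hbd h.memLp, ?_⟩
  refine le_of_forall_pos_le_add fun s hs => ?_
  obtain ⟨φ, hφ, hφc, hφδ⟩ := h.approx (s / (8 + 2 * τ⁻¹)) (by positivity)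
  have hd : MemLp (fun x => u x - φ x) 2 volume := h.memLp.sub (memLp_smooth hφ hφc)
  have hdg : MemLp (fun x => g x - gradient φ x) 2 volume := h.memLp_grad.sub (memLp_gradient_smooth hφ hφc)
  have hi : Integrable (fun x => (u x - φ x)^2 + ‖g x - gradient φ x‖^2) :=
    (integrable_sq hd).add (integrable_normsq hdg)
  have hiφ : IsH1 φ (gradient φ) := isH1_of_smooth hφ hφc
  have h1 : ∫ x, wt τ x * (u x)^2 ≤ 2 * (∫ x, wt τ x * (φ x)^2) + 2 * (∫ x, wt τ x * (u x - φ x)^2) := by
    rw [← integral_const_mul, ← integral_const_mul, ← integral_add ((hbd hiφ.memLp).const_mul _) ((hbd hd).const_mul _)]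
    refine integral_mono (hbd h.memLp) (((hbd hiφ.memLp).const_mul _).add ((hbd hd).const_mul _)) fun x => ?_
    beta_reduce
    have := wt_pos hτ hτ1 x
    nlinarith [mul_nonneg this.le (sq_nonneg (u x - 2 * φ x))]
  have h2 : ∫ x, wt τ x * (u x - φ x)^2 ≤ τ⁻¹ * ∫ x, ((u x - φ x)^2 + ‖g x - gradient φ x‖^2) := by
    rw [← integral_const_mul]
    refine integral_mono (hbd hd) (hi.const_mul _) fun x => ?_
    beta_reduce
    have h3 := wt_le hτ hτ1 x
    have h4 := mul_le_mul_of_nonneg_right h3 (sq_nonneg (u x - φ x))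
    have h5 : 0 ≤ τ⁻¹ * ‖g x - gradient φ x‖^2 := by positivity
    linarith
  have h3 := hardy_smooth hτ hτ1 hN hφ hφc
  have h4 : normSq φ (gradient φ) ≤ 2 * normSq u g + 2 * ∫ x, ((u x - φ x)^2 + ‖g x - gradient φ x‖^2) := by
    unfold normSq
    rw [← integral_const_mul, ← integral_const_mul, ← integral_add (h.integrable.const_mul _) (hi.const_mul _)]
    refine integral_mono hiφ.integrable ((h.integrable.const_mul _).add (hi.const_mul _)) fun x => ?_
    beta_reduce
    have h5 := norm_add_sq_le (g x) (-(g x - gradient φ x))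
    rw [norm_neg, show g x + -(g x - gradient φ x) = gradient φ x by abel] at h5
    nlinarith [sq_nonneg (2 * u x - φ x)]
  set D := ∫ x, ((u x - φ x)^2 + ‖g x - gradient φ x‖^2) with hD
  have h5 : (8 + 2 * τ⁻¹) * D < s := by
    rwa [lt_div_iff₀ (by positivity), mul_comm] at hφδ
  nlinarith

end Pool.Agent.Results.MP_9ab776_an
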