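import Pool.Agent.Hhelper28.Core.Cells

open MeasureTheory Set Filter Topology Metric
open scoped ContDiff NNReal ENNReal

namespace Pool.Agent.Results.MP_9ab776_an

variable {N : ℕ}

lemma norm_gradient_eq (f : E N → ℝ) (x : E N) : ‖gradient f x‖ = ‖fderiv ℝ f x‖ := by
  unfold gradient
  exact LinearIsometryEquiv.norm_map _ _

/-- GNS on the ball of radius 2 for test functions -/
lemma gns_smooth (hN : 2 ≤ N) {p : ℝ} (hp : 2 < p) (hp' : ((N:ℝ)-2)*p < 2*N) : 
    ∃ C : ℝ≥0, ∀ φ : E N → ℝ, ContDiff ℝ ∞ φ → φ.support ⊆ ball 0 2 → 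
      eLpNorm φ (ENNReal.ofReal p) volume ≤ C * eLpNorm (gradient φ) 2 volume := by
  have hN0 : (0:ℝ) < N := by have : (2:ℝ) ≤ N := by exact_mod_cast hN
                             linarith
  have hN2 : (2:ℝ) ≤ N := by exact_mod_cast hN
  set P : ℝ := (1/p + 1/N)⁻¹ with hP
  have hp0 : 0 < p := by linarith
  have hs0 : 0 < 1/p + 1/(N:ℝ) := by positivity
  have hP1 : 1 ≤ P := by
    rw [hP, one_le_inv₀ hs0]
    have h1 : 1/p ≤ 1/2 := by gcongr
    have h2 : 1/(N:ℝ) ≤ 1/2 := by gcongr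
    linarith
  have hP2 : P < 2 := by
    rw [hP, inv_lt_comm₀ hs0 two_pos]
    rw [div_add_div _ _ hp0.ne' hN0.ne', lt_div_iff₀ (by positivity)]
    linarith
  have hPN : P < N := by linarith
  set Pn : ℝ≥0 := ⟨P, by linarith⟩ with hPn
  set pn : ℝ≥0 := p.toNNReal with hpn
  have hpn' : (pn : ℝ) = p := Real.coe_toNNReal _ hp0.le
  set μc : ℝ≥0 := ((volume (closedBall (0 : E N) 2)) ^ (1 / P - 1 / 2)).toNNReal with hμc
  have hvol : (volume (closedBall (0 : E N) 2)) ≠ ⊤ := measure_closedBall_lt_top.ne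
  have hexp : 0 ≤ 1 / P - 1 / 2 := by
    have : 1/2 ≤ 1/P := one_div_le_one_div_of_le (by linarith) hP2.le
    linarith
  refine ⟨eLpNormLESNormFDerivOfLeConst ℝ (volume : Measure (E N)) (ball 0 2) Pn pn * μc, ?_⟩
  intro φ hφ hsupp
  have h1 := eLpNorm_le_eLpNorm_fderiv_of_le (μ := (volume : Measure (E N))) (u := φ) (s := ball 0 2) 
    (hφ.of_le (by simp)) hsupp (p := Pn) (q := pn) (by exact_mod_cast hP1) (by
      rw [finrank_euclideanSpace, Fintype.card_fin]
      exact_mod_cast hPN) (by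
      rw [finrank_euclideanSpace, Fintype.card_fin, hpn']
      have : ((Pn⁻¹ : ℝ≥0) : ℝ) = 1/p + 1/N := by
        rw [NNReal.coe_inv]
        show P⁻¹ = _
        rw [hP, inv_inv]
      rw [this]
      apply le_of_eq
      rw [one_div, one_div]; ring) isBounded_ball
  have hsuppd : (fderiv ℝ φ).support ⊆ closedBall 0 2 := by
    refine (support_fderiv_subset ℝ).trans ?_
    exact (closure_mono hsupp).trans closure_ball_subset_closedBall
  have h2 : eLpNorm (fderiv ℝ φ) Pn volume ≤ eLpNorm (fderiv ℝ φ) 2 volume * μc := by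
    have e3 := eLpNorm_restrict_eq_of_support_subset (p := (Pn:ℝ≥0∞)) (μ := volume) (f := fderiv ℝ φ) (s := closedBall 0 2) hsuppd
    rw [← e3]
    have hc : Continuous (fderiv ℝ φ) := hφ.continuous_fderiv (by simp)
    refine (eLpNorm_le_eLpNorm_mul_rpow_measure_univ (q := 2) ?_ hc.aestronglyMeasurable).trans ?_
    · have : Pn ≤ 2 := by
        rw [← NNReal.coe_le_coe]; exact hP2.le
      exact_mod_cast this
    · rw [Measure.restrict_apply_univ]
      gcongr
      · exact Measure.restrict_le_self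
      · rw [hμc, ENNReal.coe_toNNReal]
        · apply le_of_eq; congr 1
        · exact ENNReal.rpow_ne_top_of_nonneg hexp hvol
  have h3 : eLpNorm (gradient φ) 2 volume = eLpNorm (fderiv ℝ φ) 2 volume := 
    eLpNorm_congr_norm_ae (Eventually.of_forall fun x => norm_gradient_eq φ x)
  rw [h3]
  calc eLpNorm φ (ENNReal.ofReal p) volume = eLpNorm φ pn volume := rfl
    _ ≤ _ := h1
    _ ≤ eLpNormLESNormFDerivOfLeConst ℝ (volume : Measure (E N)) (ball 0 2) Pn pn * (eLpNorm (fderiv ℝ φ) 2 volume * μc) := by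
        gcongr
    _ = _ := by push_cast; ring

end Pool.Agent.Results.MP_9ab776_an
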