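import Pool.Agent.Hhelper28.Core.Local

open MeasureTheory Set Filter Topology Metric
open scoped ContDiff NNReal ENNReal

namespace Pool.Agent.Results.MP_9ab776_an

variable {N : ℕ}

lemma mul_approx {u : E N → ℝ} {g : E N → E N} (h : IsH1 u g) {m : E N → ℝ} (hm : IsMult m) :
    ∃ K : ℝ, 0 < K ∧ ∀ φ : E N → ℝ, ContDiff ℝ ∞ φ → HasCompactSupport φ → 
      ∫ x, ((m x * u x - m x * φ x)^2 + ‖m x • g x + u x • gradient m x - gradient (fun x => m x * φ x) x‖^2) ≤ 
      K * ∫ x, ((u x - φ x)^2 + ‖g x - gradient φ x‖^2) := by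
  obtain ⟨C, hC⟩ := hm.bdd
  obtain ⟨D, hD⟩ := hm.bddGrad
  set K : ℝ := 2 * C^2 + 2 * D^2 + 1 with hK
  have hKpos : 0 < K := by positivity
  refine ⟨K, hKpos, fun φ hφ hφc => ?_⟩
  have hi : Integrable (fun x => (u x - φ x)^2 + ‖g x - gradient φ x‖^2) :=
    (integrable_sq (h.memLp.sub (memLp_smooth hφ hφc))).add 
      (integrable_normsq (h.memLp_grad.sub (memLp_gradient_smooth hφ hφc)))
  rw [← integral_const_mul]
  refine integral_mono_of_nonneg (Eventually.of_forall fun x => by positivity) (hi.const_mul K)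
    (Eventually.of_forall fun x => ?_)
  beta_reduce
  rw [gradient_mul (differentiableAt_of_smooth hm.smooth x) (differentiableAt_of_smooth hφ x)]
  have e1 : m x • g x + u x • gradient m x - (m x • gradient φ x + φ x • gradient m x) = 
      m x • (g x - gradient φ x) + (u x - φ x) • gradient m x := by
    rw [smul_sub, sub_smul]; abel
  rw [e1]
  have h1 := norm_add_sq_le (m x • (g x - gradient φ x)) ((u x - φ x) • gradient m x)
  rw [norm_smul, norm_smul, mul_pow, mul_pow, Real.norm_eq_abs, Real.norm_eq_abs, sq_abs, sq_abs] at h1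
  have h2 : (m x)^2 ≤ C^2 := by
    rw [← sq_abs]; exact pow_le_pow_left₀ (abs_nonneg _) (hC x) 2
  have h3 : ‖gradient m x‖^2 ≤ D^2 := pow_le_pow_left₀ (norm_nonneg _) (hD x) 2
  have h4 : (m x * u x - m x * φ x)^2 = (m x)^2 * (u x - φ x)^2 := by ring
  rw [h4]
  have h5 := mul_le_mul_of_nonneg_right h2 (sq_nonneg (u x - φ x))
  have h6 := mul_le_mul_of_nonneg_right h2 (sq_nonneg (‖g x - gradient φ x‖))
  have h7 := mul_le_mul_of_nonneg_left h3 (sq_nonneg (u x - φ x))
  have h8 := sq_nonneg (u x - φ x)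
  have h9 := sq_nonneg (‖g x - gradient φ x‖)
  have h10 : 0 ≤ C^2 := sq_nonneg _
  have h11 : 0 ≤ D^2 := sq_nonneg _
  rw [hK]
  nlinarith [mul_nonneg h10 h8, mul_nonneg h11 h9]

lemma eLpNorm_two_le {F : Type*} [NormedAddCommGroup F] {f : E N → F} (hf : MemLp f 2 volume) {c : ℝ}
    (hc : ∫ x, ‖f x‖^2 ≤ c) : eLpNorm f 2 volume ≤ ENNReal.ofReal (Real.sqrt c) := by
  rw [hf.eLpNorm_eq_integral_rpow_norm (by simp) (by simp)]
  apply ENNReal.ofReal_le_ofReal
  simp only [ENNReal.toReal_ofNat, Real.rpow_two]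
  rw [← one_div, ← Real.sqrt_eq_rpow]
  exact Real.sqrt_le_sqrt hc

/-- GNS on `H¹` -/
lemma gns_H1 (hN : 2 ≤ N) {p : ℝ} (hp : 2 < p) (hp' : ((N:ℝ)-2)*p < 2*N) : 
    ∃ C : ℝ≥0, ∀ ζ : E N → ℝ, IsMult ζ → ζ.support ⊆ ball 0 2 → ∀ v k, IsH1 v k → 
      eLpNorm (fun x => ζ x * v x) (ENNReal.ofReal p) volume ≤ 
        C * eLpNorm (fun x => ζ x • k x + v x • gradient ζ x) 2 volume := by
  obtain ⟨C, hC⟩ := gns_smooth hN hp hp'
  refine ⟨C, fun ζ hζ hsupp v k hv => ?_⟩
  obtain ⟨K, hK, happ⟩ := mul_approx hv hζ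
  have hex : ∀ n : ℕ, ∃ φ : E N → ℝ, ContDiff ℝ ∞ φ ∧ HasCompactSupport φ ∧
    ∫ x, ((v x - φ x) ^ 2 + ‖k x - gradient φ x‖ ^ 2) < 1 / ((n:ℝ) + 1) := fun n => hv.approx _ (by positivity)
  choose φ hφ hφc hφδ using hex
  set w : E N → ℝ := fun x => ζ x * v x with hw
  set l : E N → E N := fun x => ζ x • k x + v x • gradient ζ x with hl
  set f : ℕ → E N → ℝ := fun n x => ζ x * φ n x with hf
  have hwH : IsH1 w l := hv.mul hζ
  have hfs : ∀ n, ContDiff ℝ ∞ (f n) := fun n => hζ.smooth.mul (hφ n)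
  have hfc : ∀ n, HasCompactSupport (f n) := fun n => (hφc n).mul_left
  have hfH : ∀ n, IsH1 (f n) (gradient (f n)) := fun n => isH1_of_smooth (hfs n) (hfc n)
  have hd : ∀ n, MemLp (fun x => f n x - w x) 2 volume := fun n => (hfH n).memLp.sub hwH.memLp
  have hdg : ∀ n, MemLp (fun x => gradient (f n) x - l x) 2 volume := fun n => (hfH n).memLp_grad.sub hwH.memLp_grad
  have hb : ∀ n, ∫ x, ((w x - f n x)^2 + ‖l x - gradient (f n) x‖^2) ≤ K * (1 / ((n:ℝ) + 1)) := by
    intro n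
    refine (happ (φ n) (hφ n) (hφc n)).trans ?_
    exact mul_le_mul_of_nonneg_left (hφδ n).le hK.le
  have hbi : ∀ n, Integrable (fun x => (w x - f n x)^2 + ‖l x - gradient (f n) x‖^2) := fun n => 
    (integrable_sq (hwH.memLp.sub (hfH n).memLp)).add (integrable_normsq (hwH.memLp_grad.sub (hfH n).memLp_grad))
  have hlim : Tendsto (fun n : ℕ => ENNReal.ofReal (Real.sqrt (K * (1 / ((n:ℝ) + 1))))) atTop (𝓝 0) := by
    have h1 : Tendsto (fun n : ℕ => K * (1 / ((n:ℝ) + 1))) atTop (𝓝 0) := by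
      have := (tendsto_one_div_add_atTop_nhds_zero_nat (𝕜 := ℝ)).const_mul K
      simpa using this
    have h2 := (ENNReal.tendsto_ofReal (h1.sqrt))
    simpa using h2
  have hL : Tendsto (fun n => eLpNorm (f n - w) 2 volume) atTop (𝓝 0) := by
    refine tendsto_of_tendsto_of_tendsto_of_le_of_le tendsto_const_nhds hlim (fun n => zero_le) fun n => ?_
    refine eLpNorm_two_le (hd n) ?_
    refine le_trans ?_ (hb n)
    refine integral_mono_of_nonneg (Eventually.of_forall fun x => by positivity) (hbi n) 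
      (Eventually.of_forall fun x => ?_)
    beta_reduce
    rw [Real.norm_eq_abs, sq_abs]
    nlinarith [sq_nonneg ‖l x - gradient (f n) x‖]
  have hLg : Tendsto (fun n => eLpNorm (gradient (f n) - l) 2 volume) atTop (𝓝 0) := by
    refine tendsto_of_tendsto_of_tendsto_of_le_of_le tendsto_const_nhds hlim (fun n => zero_le) fun n => ?_
    refine eLpNorm_two_le (hdg n) ?_
    refine le_trans ?_ (hb n)
    refine integral_mono_of_nonneg (Eventually.of_forall fun x => by positivity) (hbi n) 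
      (Eventually.of_forall fun x => ?_)
    beta_reduce
    rw [norm_sub_rev]
    nlinarith [sq_nonneg (w x - f n x)]
  have hmeas := tendstoInMeasure_of_tendsto_eLpNorm (by simp) (fun n => (hfH n).memLp.1) hwH.memLp.1 hL
  obtain ⟨ns, hns, hae⟩ := hmeas.exists_seq_tendsto_ae
  refine (Lp.eLpNorm_lim_le_liminf_eLpNorm (f := fun i => f (ns i)) (fun n => (hfH (ns n)).memLp.1) w hae).trans ?_
  have hbound : ∀ i, eLpNorm (f (ns i)) (ENNReal.ofReal p) volume ≤ 
      C * (eLpNorm l 2 volume + eLpNorm (gradient (f (ns i)) - l) 2 volume) := by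
    intro i
    have h1 := hC (f (ns i)) (hfs _) (by
      refine Subset.trans ?_ hsupp
      intro x hx
      simp only [hf, Function.mem_support, ne_eq, mul_eq_zero, not_or] at hx ⊢
      exact hx.1)
    refine h1.trans ?_
    gcongr
    have h2 := eLpNorm_add_le (p := 2) (μ := volume) hwH.memLp_grad.1 (hdg (ns i)).1 (by norm_num)
    refine le_trans (le_of_eq ?_) h2
    congr 1
    funext x
    simp
  have hlim2 : Tendsto (fun i => (C:ℝ≥0∞) * (eLpNorm l 2 volume + eLpNorm (gradient (f (ns i)) - l) 2 volume)) atTop 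
      (𝓝 (C * (eLpNorm l 2 volume + 0))) := by
    refine ENNReal.Tendsto.const_mul ?_ (Or.inr ENNReal.coe_ne_top)
    exact tendsto_const_nhds.add (hLg.comp hns.tendsto_atTop)
  refine (liminf_le_liminf (Eventually.of_forall hbound)).trans ?_
  rw [hlim2.liminf_eq, add_zero]

end Pool.Agent.Results.MP_9ab776_an
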