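import Pool.Agent.Hhelper28.Core.Local2

open MeasureTheory Set Filter Topology Metric
open scoped ContDiff NNReal ENNReal

namespace Pool.Agent.Results.MP_9ab776_an

variable {N : ℕ}

lemma add_rpow_le {a b q : ℝ} (ha : 0 ≤ a) (hb : 0 ≤ b) (hq : 0 ≤ q) : (a + b)^q ≤ (2*a)^q + (2*b)^q := by
  rcases le_total a b with h | h
  · have : (a+b)^q ≤ (2*b)^q := Real.rpow_le_rpow (by positivity) (by linarith) hq
    have h2 : 0 ≤ (2*a)^q := by positivity
    linarith
  · have : (a+b)^q ≤ (2*a)^q := Real.rpow_le_rpow (by positivity) (by linarith) hq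
    have h2 : 0 ≤ (2*b)^q := by positivity
    linarith

/-- Jensen -/
lemma jensen {p : ℝ} (hp : 2 < p) {v : E N → ℝ} (hv : MemLp v 2 volume) (hi : Integrable (fun x => |v x|^p)) 
    {A : Set (E N)} (hA : volume A ≠ ⊤) : 
    (∫ x in A, (v x)^2)^(p/2) ≤ ((volume A).toReal)^(p/2-1) * ∫ x in A, |v x|^p := by
  have hp0 : 0 < p := by linarith
  have hvA : MemLp v 2 (volume.restrict A) := hv.restrict A
  have hvp : MemLp v (ENNReal.ofReal p) (volume.restrict A) := by
    have : MemLp v (ENNReal.ofReal p) volume := by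
      rw [← integrable_norm_rpow_iff hv.1 (by simpa using hp0) (by simp)]
      rw [ENNReal.toReal_ofReal hp0.le]
      exact hi
    exact this.restrict A
  have h1 := eLpNorm_le_eLpNorm_mul_rpow_measure_univ (p := 2) (q := ENNReal.ofReal p) (μ := volume.restrict A) (f := v) 
    (by rw [← ENNReal.ofReal_ofNat]; exact ENNReal.ofReal_le_ofReal hp.le) hvA.1
  rw [hvA.eLpNorm_eq_integral_rpow_norm (by simp) (by simp), hvp.eLpNorm_eq_integral_rpow_norm (by simpa using hp0) (by simp),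
    Measure.restrict_apply_univ] at h1
  simp only [ENNReal.toReal_ofNat, ENNReal.toReal_ofReal hp0.le, Real.norm_eq_abs, Real.rpow_two, sq_abs] at h1
  set X := ∫ x in A, (v x)^2 with hX
  set Y := ∫ x in A, |v x|^p with hY
  have hX0 : 0 ≤ X := integral_nonneg fun x => by positivity
  have hY0 : 0 ≤ Y := integral_nonneg fun x => by positivity
  have hexp : 0 ≤ 1/2 - 1/p := by
    have : 1/p ≤ 1/2 := by gcongr
    linarith
  have h2 : ENNReal.ofReal (X^((2:ℝ)⁻¹)) ≤ ENNReal.ofReal (Y^(p⁻¹) * ((volume A).toReal)^(1/2 - 1/p)) := by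
    rw [ENNReal.ofReal_mul (by positivity), ← ENNReal.ofReal_rpow_of_nonneg ENNReal.toReal_nonneg hexp, ENNReal.ofReal_toReal hA]
    exact h1
  rw [ENNReal.ofReal_le_ofReal_iff (by positivity)] at h2
  have h3 := Real.rpow_le_rpow (by positivity) h2 hp0.le
  rw [← Real.rpow_mul hX0, Real.mul_rpow (by positivity) (by positivity), ← Real.rpow_mul hY0, inv_mul_cancel₀ hp0.ne',
    Real.rpow_one, ← Real.rpow_mul ENNReal.toReal_nonneg] at h3
  have e1 : (2:ℝ)⁻¹ * p = p / 2 := by ring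
  have e2 : (1/2 - 1/p) * p = p/2 - 1 := by field_simp
  rw [e1, e2] at h3
  linarith

lemma local_gns (hN : 2 ≤ N) {p : ℝ} (hp : 2 < p) (hp' : ((N:ℝ)-2)*p < 2*N) : 
    ∃ C : ℝ, 0 < C ∧ ∀ (v : E N → ℝ) (k : E N → E N), IsH1 v k → Integrable (fun x => |v x|^p) → 
      ∫ x in ball 0 1, |v x|^p ≤ C * ((∫ x, ‖k x‖^2)^(p/2) + ∫ x in ball 0 2 \ ball 0 1, |v x|^p) := by
  obtain ⟨C, hC⟩ := gns_H1 hN hp hp'
  have hp0 : 0 < p := by linarith
  let ζ : ContDiffBump (0 : E N) := ⟨1, 2, one_pos, one_lt_two⟩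
  have hζs : ContDiff ℝ ∞ (ζ : E N → ℝ) := ζ.contDiff
  have hζm : IsMult (ζ : E N → ℝ) := isMult_of_compact hζs ζ.hasCompactSupport
  have hζ0 : ∀ x, 0 ≤ ζ x := fun x => ζ.nonneg
  have hζ1 : ∀ x, ζ x ≤ 1 := fun x => ζ.le_one
  obtain ⟨D, hD⟩ := hζm.bddGrad
  set A : Set (E N) := ball 0 2 \ ball 0 1 with hA
  have hAm : MeasurableSet A := measurableSet_ball.diff measurableSet_ball
  have hAvol : volume A ≠ ⊤ := (lt_of_le_of_lt (measure_mono sdiff_subset) measure_ball_lt_top).ne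
  set VA := ((volume A).toReal)^(p/2-1) with hVA
  have hVA0 : 0 ≤ VA := by positivity
  set C' : ℝ := (C:ℝ)^p * ((4:ℝ)^(p/2) + (4*D^2)^(p/2) * VA) + 1 with hC'
  refine ⟨C', by positivity, fun v k hv hi => ?_⟩
  set w : E N → ℝ := fun x => ζ x * v x with hw
  set l : E N → E N := fun x => ζ x • k x + v x • gradient ζ x with hl
  have hwH : IsH1 w l := hv.mul hζm
  have hwi : Integrable (fun x => |w x|^p) := integrable_mul_pow hp hv.memLp hi hζs.continuous hζ0 hζ1
  have hwp : MemLp w (ENNReal.ofReal p) volume := by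
    rw [← integrable_norm_rpow_iff hwH.memLp.1 (by simpa using hp0) (by simp)]
    rw [ENNReal.toReal_ofReal hp0.le]
    exact hwi
  have h1 := hC ζ hζm (by rw [ζ.support_eq]) v k hv
  rw [hwp.eLpNorm_eq_integral_rpow_norm (by simpa using hp0) (by simp), 
    hwH.memLp_grad.eLpNorm_eq_integral_rpow_norm (by simp) (by simp)] at h1
  simp only [ENNReal.toReal_ofNat, ENNReal.toReal_ofReal hp0.le, Real.norm_eq_abs, Real.rpow_two] at h1
  rw [← ENNReal.ofReal_coe_nnreal, ← ENNReal.ofReal_mul (by positivity), ENNReal.ofReal_le_ofReal_iff (by positivity)] at h1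
  have hW0 : 0 ≤ ∫ x, |w x|^p := integral_nonneg fun x => by positivity
  have hL0 : 0 ≤ ∫ x, ‖l x‖^2 := integral_nonneg fun x => by positivity
  have h2 := Real.rpow_le_rpow (by positivity) h1 hp0.le
  rw [← Real.rpow_mul hW0, inv_mul_cancel₀ hp0.ne', Real.rpow_one, Real.mul_rpow (by positivity) (by positivity),
    ← Real.rpow_mul hL0] at h2
  have e1 : (2:ℝ)⁻¹ * p = p / 2 := by ring
  rw [e1] at h2
  -- gradient bound
  have hk2 : Integrable (fun x => ‖k x‖^2) := integrable_normsq hv.memLp_grad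
  have hv2 : Integrable (fun x => (v x)^2) := integrable_sq hv.memLp
  set X := ∫ x, ‖k x‖^2 with hX
  set Y := ∫ x in A, (v x)^2 with hY
  have hX0 : 0 ≤ X := integral_nonneg fun x => by positivity
  have hY0 : 0 ≤ Y := integral_nonneg fun x => by positivity
  have h3 : ∫ x, ‖l x‖^2 ≤ 2 * X + 2 * D^2 * Y := by
    rw [hX, hY, ← integral_indicator hAm, ← integral_const_mul, ← integral_const_mul, 
      ← integral_add (hk2.const_mul _) ((hv2.indicator hAm).const_mul _)]
    refine integral_mono_of_nonneg (Eventually.of_forall fun x => by positivity) 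
      ((hk2.const_mul _).add ((hv2.indicator hAm).const_mul _)) (Eventually.of_forall fun x => ?_)
    beta_reduce
    have h4 := norm_add_sq_le (ζ x • k x) (v x • gradient ζ x)
    rw [norm_smul, norm_smul, mul_pow, mul_pow, Real.norm_eq_abs, Real.norm_eq_abs, sq_abs, sq_abs] at h4
    have h5 : (ζ x)^2 ≤ 1 := by
      have := hζ0 x; have := hζ1 x; nlinarith
    have h6 : (v x)^2 * ‖gradient ζ x‖^2 ≤ D^2 * A.indicator (fun x => (v x)^2) x := by
      by_cases hx : x ∈ A
      · rw [indicator_of_mem hx]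
        have := pow_le_pow_left₀ (norm_nonneg _) (hD x) 2
        nlinarith [sq_nonneg (v x)]
      · rw [indicator_of_notMem hx]
        have : gradient ζ x = 0 := by
          by_cases hx1 : x ∈ ball 0 1
          · exact gradient_zero_of_max hζ1 (ζ.one_of_mem_closedBall (ball_subset_closedBall hx1))
          · have hx2 : x ∉ ball 0 2 := fun h => hx ⟨h, hx1⟩
            exact gradient_zero_of_min hζ0 (ζ.zero_of_le_dist (not_lt.1 hx2))
        rw [this]; simp
    have h7 : (ζ x)^2 * ‖k x‖^2 ≤ ‖k x‖^2 := by nlinarith [sq_nonneg ‖k x‖]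
    linarith
  have h4 : (∫ x, ‖l x‖^2)^(p/2) ≤ (4:ℝ)^(p/2) * X^(p/2) + (4*D^2)^(p/2) * Y^(p/2) := by
    refine (Real.rpow_le_rpow hL0 h3 (by positivity)).trans ?_
    refine (add_rpow_le (by positivity) (by positivity) (by positivity)).trans ?_
    rw [← Real.mul_rpow (by positivity) hX0, ← Real.mul_rpow (by positivity) hY0]
    apply le_of_eq
    congr 2 <;> ring
  have h5 := jensen hp hv.memLp hi hAvol
  rw [← hY, ← hVA] at h5
  set Z := ∫ x in A, |v x|^p with hZ
  have hZ0 : 0 ≤ Z := integral_nonneg fun x => by positivity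
  have h6 : ∫ x in ball 0 1, |v x|^p ≤ ∫ x, |w x|^p := by
    rw [← integral_indicator measurableSet_ball]
    refine integral_mono (hi.indicator measurableSet_ball) hwi fun x => ?_
    beta_reduce
    by_cases hx : x ∈ ball (0 : E N) 1
    · rw [indicator_of_mem hx, hw]
      beta_reduce
      rw [ζ.one_of_mem_closedBall (ball_subset_closedBall hx), one_mul]
    · rw [indicator_of_notMem hx]; positivity
  have hXp : 0 ≤ X^(p/2) := by positivity
  have hCp : 0 ≤ (C:ℝ)^p := by positivity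
  calc ∫ x in ball 0 1, |v x|^p ≤ ∫ x, |w x|^p := h6
    _ ≤ (C:ℝ)^p * (∫ x, ‖l x‖^2)^(p/2) := h2
    _ ≤ (C:ℝ)^p * ((4:ℝ)^(p/2) * X^(p/2) + (4*D^2)^(p/2) * Y^(p/2)) := by gcongr
    _ ≤ (C:ℝ)^p * ((4:ℝ)^(p/2) * X^(p/2) + (4*D^2)^(p/2) * (VA * Z)) := by gcongr
    _ ≤ C' * (X^(p/2) + Z) := by
        have h7 : 0 ≤ (4:ℝ)^(p/2) := by positivity
        have h8 : 0 ≤ (4*D^2)^(p/2) := by positivity
        rw [hC']
        have h9 : 0 ≤ (C:ℝ)^p * (4:ℝ)^(p/2) * Z := by positivity
        have h10 : 0 ≤ (C:ℝ)^p * ((4*D^2)^(p/2) * VA) * X^(p/2) := by positivity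
        nlinarith

end Pool.Agent.Results.MP_9ab776_an
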