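import Pool.Agent.Hhelper28.Core.Local3

open MeasureTheory Set Filter Topology Metric
open scoped ContDiff NNReal ENNReal

namespace Pool.Agent.Results.MP_9ab776_an

variable {N : ℕ}

lemma latt_zero : (latt (0 : Fin N → ℤ) : E N) = 0 := by
  ext i; simp [latt]

noncomputable def omega (N : ℕ) (p ε : ℝ) : ℝ := ε^N * (ε^2 * (ε^N)⁻¹)^(p/2)

/-- upper bound for the least energy through a concentrated test function -/
lemma test_bound {p : ℝ} (hp : 2 < p) : 
    ∃ C : ℝ, 0 < C ∧ ∀ ε : ℝ, 0 < ε → ε ≤ 1/2 → ∀ (u : E N → ℝ) (g : E N → E N), IsLeastEnergySolution p ε u g → 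
      (normSq u g)^((p-2)/2) * omega N p ε ≤ C := by
  let β : ContDiffBump (0 : E N) := ⟨1/2, 1, by norm_num, by norm_num⟩
  have hβs : ContDiff ℝ ∞ (β : E N → ℝ) := β.contDiff
  have hβH : IsH1 (β : E N → ℝ) (gradient β) := isH1_of_smooth hβs β.hasCompactSupport
  have hβ0 : ∀ x, 0 ≤ β x := fun x => β.nonneg
  have hβ1 : ∀ x, β x ≤ 1 := fun x => β.le_one
  have hp0 : 0 < p := by linarith
  have hβp : 0 < ∫ x, |β x|^p := by
    have hc : Continuous (fun x => |β x|^p) := hβs.continuous.abs.rpow_const (fun x => Or.inr hp0.le)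
    refine hc.integral_pos_of_hasCompactSupport_nonneg_nonzero ?_ (fun x => by positivity) (x := 0) ?_
    · have : (fun x => |β x|^p) = (fun t : ℝ => |t|^p) ∘ β := rfl
      rw [this]
      exact β.hasCompactSupport.comp_left (by simp [Real.zero_rpow hp0.ne'])
    · have : β 0 = 1 := β.one_of_mem_closedBall (by simp; norm_num)
      rw [this]; simp
  set Bp := ∫ x, |β x|^p with hBp
  set n := normSq (β : E N → ℝ) (gradient β) with hn
  have hn0 : 0 ≤ n := normSq_nonneg _ _
  refine ⟨n^(p/2) / Bp + 1, by positivity, ?_⟩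
  intro ε hε hε2 u g h
  have h1 := least_energy_ineq hp h (hβH.affine 0 ε⁻¹ (by positivity))
  have hεN : (0:ℝ) < ε^N := by positivity
  have hs : ((ε⁻¹)^N)⁻¹ = ε^N := by rw [inv_pow, inv_inv]
  have e1 : normSq (fun x => β (0 + ε⁻¹ • x)) (fun x => ε⁻¹ • gradient β (0 + ε⁻¹ • x)) ≤ 
      ε^N * (ε⁻¹^2 * n) := by
    unfold normSq
    have := integral_affine (fun x => ‖ε⁻¹ • gradient β x‖^2 + (β x)^2) 0 ε⁻¹ (by positivity)
    beta_reduce at this
    rw [this, hs]
    refine mul_le_mul_of_nonneg_left ?_ hεN.le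
    rw [hn]
    unfold normSq
    rw [← integral_const_mul]
    refine integral_mono_of_nonneg (Eventually.of_forall fun x => by positivity) (hβH.integrable.const_mul _)
      (Eventually.of_forall fun x => ?_)
    beta_reduce
    rw [norm_smul, mul_pow, Real.norm_eq_abs, sq_abs, mul_add]
    have h2 : 1 ≤ ε⁻¹^2 := by
      have : 1 ≤ ε⁻¹ := (one_le_inv₀ hε).2 (by linarith)
      nlinarith
    nlinarith [sq_nonneg (β x)]
  have e2 : ∫ x, Q ε x * |β (0 + ε⁻¹ • x)|^p = ε^N * Bp := by
    have := integral_affine (fun x => Q ε (ε • x) * |β x|^p) 0 ε⁻¹ (by positivity)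
    beta_reduce at this
    have e4 : ∀ x : E N, ε • (0 + ε⁻¹ • x) = x := by
      intro x
      rw [zero_add, smul_smul, mul_inv_cancel₀ hε.ne', one_smul]
    simp only [e4] at this
    rw [this, hs, hBp]
    congr 2
    funext x
    by_cases hx : x ∈ ball (0 : E N) 1
    · have : Q ε (ε • x) = 1 := by
        have hmem : ε • x ∈ ball (latt (0 : Fin N → ℤ)) ε := by
          rw [latt_zero, mem_ball_zero_iff, norm_smul, Real.norm_eq_abs, abs_of_pos hε]
          rw [mem_ball_zero_iff] at hx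
          nlinarith
        unfold Q
        exact if_pos ⟨0, hmem⟩
      rw [this, one_mul]
    · have : β x = 0 := β.zero_of_le_dist (not_lt.1 hx)
      rw [this]; simp [Real.zero_rpow hp0.ne']
  rw [e2] at h1
  have h2 := h1.trans (Real.rpow_le_rpow (normSq_nonneg _ _) e1 (by linarith))
  set E' := (normSq u g)^((p-2)/2) with hE'
  have hE0 : 0 ≤ E' := Real.rpow_nonneg (normSq_nonneg _ _) _
  -- multiply by (ε^2/ε^N)^(p/2)
  have h3 := mul_le_mul_of_nonneg_right h2 (show 0 ≤ (ε^2 * (ε^N)⁻¹)^(p/2) by positivity)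
  rw [← Real.mul_rpow (by positivity) (by positivity)] at h3
  have e5 : ε^N * (ε⁻¹^2 * n) * (ε^2 * (ε^N)⁻¹) = n := by
    field_simp
  rw [e5] at h3
  have h4 : E' * omega N p ε ≤ n^(p/2) / Bp := by
    rw [le_div_iff₀ hβp]
    unfold omega
    linarith
  linarith

lemma integrable_affine {f : E N → ℝ} (hf : Integrable f) (z : E N) {s : ℝ} (hs : 0 < s) : 
    Integrable (fun x => f (z + s • x)) := (hf.comp_add_left z).comp_smul hs.ne'

lemma cell_gns (hN : 2 ≤ N) {p : ℝ} (hp : 2 < p) (hp' : ((N:ℝ)-2)*p < 2*N) : 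
    ∃ C : ℝ, 0 < C ∧ ∀ ε : ℝ, 0 < ε → 2 * ε ≤ 1/2 → ∀ (u : E N → ℝ) (g : E N → E N), IsLeastEnergySolution p ε u g → 
      ∀ (Ψ : E N → ℝ) (δ r : ℝ), IsCut Ψ δ r → 0 < δ → δ < 1/2 → ∀ z : Fin N → ℤ, 
      (((∫ x in cell z, |Ψ x * u x|^p) + ∫ x in cell z, Q ε x * |Ψ x * u x|^p) / 2) * (normSq u g)^((p-2)/2) ≤ 
      C * ((∫ x in cell z, dens Ψ u g x)^(p/2) + 
        (((∫ x in cell z, Q (2*ε) x * |Ψ x * u x|^p) - ∫ x in cell z, Q ε x * |Ψ x * u x|^p) / 2) * (normSq u g)^((p-2)/2)) := by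
  obtain ⟨C, hC0, hC⟩ := local_gns hN hp hp'
  obtain ⟨Cb, hCb0, hCb⟩ := test_bound (N := N) hp
  have hp0 : 0 < p := by linarith
  refine ⟨C * (Cb + 1), by positivity, ?_⟩
  intro ε hε hε2 u g h Ψ δ r hΨ hδ0 hδ z
  obtain ⟨ψ, hψm, hψ1, hψ0⟩ := cell_fun hΨ hδ0 hδ z
  have hwH := (h.1.1.mul hψm)
  set w : E N → ℝ := fun x => ψ x * u x with hwdef
  set k : E N → E N := fun x => ψ x • g x + u x • gradient ψ x with hkdef
  have hui := integrable_pow h
  have hhi : Integrable (fun x => |Ψ x * u x|^p) := 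
    integrable_mul_pow hp h.1.1.memLp hui hΨ.mult.smooth.continuous hΨ.nonneg hΨ.le_one
  have hweq : ∀ x, |w x|^p = (cell z).indicator (fun x => |Ψ x * u x|^p) x := by
    intro x
    by_cases hx : x ∈ cell z
    · rw [indicator_of_mem hx, hwdef]; beta_reduce; rw [(hψ1 x hx).1]
    · rw [indicator_of_notMem hx, hwdef]; beta_reduce; rw [(hψ0 x hx).1]; simp [Real.zero_rpow hp0.ne']
  have hwi : Integrable (fun x => |w x|^p) := by
    simp only [hweq]
    exact hhi.indicator (cell_meas z)
  have h1 := hC _ _ (hwH.affine (latt z) ε hε) (integrable_affine hwi (latt z) hε)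
  have hεN : (0:ℝ) < ε^N := by positivity
  have hd : ∀ x : E N, dist (latt z + ε • x) (latt z) = ε * ‖x‖ := by
    intro x
    rw [dist_eq_norm, add_sub_cancel_left, norm_smul, Real.norm_eq_abs, abs_of_pos hε]
  -- first integral
  have i1 : ∫ x in ball 0 1, |w (latt z + ε • x)|^p = (ε^N)⁻¹ * ∫ x in ball (latt z) ε, |w x|^p := by
    rw [← integral_indicator measurableSet_ball, ← integral_indicator measurableSet_ball, 
      ← integral_affine _ (latt z) ε hε]
    congr 1
    funext x
    by_cases hx : x ∈ ball (0 : E N) 1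
    · rw [indicator_of_mem hx, indicator_of_mem]
      rw [mem_ball_zero_iff] at hx
      rw [mem_ball, hd]; nlinarith
    · rw [indicator_of_notMem hx, indicator_of_notMem]
      rw [mem_ball_zero_iff, not_lt] at hx
      rw [mem_ball, hd, not_lt]; nlinarith
  have i2 : ∫ x in ball 0 2 \ ball 0 1, |w (latt z + ε • x)|^p = 
      (ε^N)⁻¹ * ∫ x in ball (latt z) (2*ε) \ ball (latt z) ε, |w x|^p := by
    rw [← integral_indicator (measurableSet_ball.diff measurableSet_ball), 
      ← integral_indicator (measurableSet_ball.diff measurableSet_ball), 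
      ← integral_affine _ (latt z) ε hε]
    congr 1
    funext x
    by_cases hx : x ∈ ball (0 : E N) 2 \ ball 0 1
    · rw [indicator_of_mem hx, indicator_of_mem]
      rw [Set.mem_sdiff, mem_ball_zero_iff, mem_ball_zero_iff, not_lt] at hx
      rw [Set.mem_sdiff, mem_ball, mem_ball, hd, not_lt]; constructor <;> nlinarith
    · rw [indicator_of_notMem hx, indicator_of_notMem]
      intro hx'
      apply hx
      rw [Set.mem_sdiff, mem_ball, mem_ball, hd, not_lt] at hx'
      rw [Set.mem_sdiff, mem_ball_zero_iff, mem_ball_zero_iff, not_lt]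
      constructor <;> nlinarith [hx'.1, hx'.2]
  have i3 : ∫ x, ‖ε • k (latt z + ε • x)‖^2 ≤ ε^2 * (ε^N)⁻¹ * ∫ x in cell z, dens Ψ u g x := by
    have := integral_affine (fun x => ‖ε • k x‖^2) (latt z) ε hε
    beta_reduce at this
    rw [this]
    have e1 : ∫ x, ‖ε • k x‖^2 = ε^2 * ∫ x, ‖k x‖^2 := by
      rw [← integral_const_mul]
      congr 1; funext x
      rw [norm_smul, mul_pow, Real.norm_eq_abs, sq_abs]
    rw [e1]
    have e2 : ∫ x, ‖k x‖^2 ≤ ∫ x in cell z, dens Ψ u g x := by
      rw [← integral_indicator (cell_meas z)]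
      refine integral_mono (integrable_normsq hwH.memLp_grad) ((integrable_dens hΨ.mult h.1.1).indicator (cell_meas z)) fun x => ?_
      beta_reduce
      by_cases hx : x ∈ cell z
      · rw [indicator_of_mem hx, hkdef]; beta_reduce; rw [(hψ1 x hx).1, (hψ1 x hx).2]
        unfold dens
        nlinarith [sq_nonneg (Ψ x * u x)]
      · rw [indicator_of_notMem hx, hkdef]; beta_reduce; rw [(hψ0 x hx).1, (hψ0 x hx).2]; simp
    calc (ε^N)⁻¹ * (ε^2 * ∫ x, ‖k x‖^2) ≤ (ε^N)⁻¹ * (ε^2 * ∫ x in cell z, dens Ψ u g x) := by gcongr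
      _ = _ := by ring
  -- identify the pieces
  have hballcell : ∀ {ρ : ℝ}, ρ ≤ 1/2 → (ball (latt z) ρ : Set (E N)) ⊆ cell z := fun h => ball_subset_ball h
  have j1 : ∫ x in ball (latt z) ε, |w x|^p = 
      ((∫ x in cell z, |Ψ x * u x|^p) + ∫ x in cell z, Q ε x * |Ψ x * u x|^p) / 2 := by
    rw [← integral_add hhi.integrableOn (integrable_Q_mul hhi).integrableOn, ← integral_div,
      ← integral_indicator (cell_meas z), ← integral_indicator measurableSet_ball]
    congr 1
    funext x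
    by_cases hx : x ∈ cell z
    · by_cases hx' : x ∈ ball (latt z) ε
      · rw [indicator_of_mem hx, indicator_of_mem hx', hweq, indicator_of_mem hx, Q_cell hx (by linarith), if_pos hx']
        ring
      · rw [indicator_of_mem hx, indicator_of_notMem hx', Q_cell hx (by linarith), if_neg hx']
        ring
    · rw [indicator_of_notMem hx, indicator_of_notMem]
      exact fun h => hx (hballcell (by linarith) h)
  have j2 : ∫ x in ball (latt z) (2*ε) \ ball (latt z) ε, |w x|^p = 
      ((∫ x in cell z, Q (2*ε) x * |Ψ x * u x|^p) - ∫ x in cell z, Q ε x * |Ψ x * u x|^p) / 2 := by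
    rw [← integral_sub (integrable_Q_mul hhi).integrableOn (integrable_Q_mul hhi).integrableOn, ← integral_div,
      ← integral_indicator (cell_meas z), ← integral_indicator (measurableSet_ball.diff measurableSet_ball)]
    congr 1
    funext x
    by_cases hx : x ∈ cell z
    · by_cases hx' : x ∈ ball (latt z) ε
      · have hx2 : x ∈ ball (latt z) (2 * ε) := ball_subset_ball (by linarith) hx'
        rw [indicator_of_mem hx, indicator_of_notMem (fun h => h.2 hx'), Q_cell hx (by linarith), 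
          Q_cell hx (by linarith), if_pos hx', if_pos hx2]
        ring
      · by_cases hx2 : x ∈ ball (latt z) (2 * ε)
        · rw [indicator_of_mem hx, indicator_of_mem (show x ∈ ball (latt z) (2*ε) \ ball (latt z) ε from ⟨hx2, hx'⟩), hweq, 
            indicator_of_mem hx, Q_cell hx (by linarith), 
            Q_cell hx (by linarith), if_neg hx', if_pos hx2]
          ring
        · rw [indicator_of_mem hx, indicator_of_notMem (fun h => hx2 h.1), Q_cell hx (by linarith), 
            Q_cell hx (by linarith), if_neg hx', if_neg hx2]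
          ring
    · rw [indicator_of_notMem hx, indicator_of_notMem]
      exact fun h => hx (hballcell (by linarith) h.1)
  rw [i1, i2, j1, j2] at h1
  set T := ∫ x in cell z, |Ψ x * u x|^p with hT
  set M := ∫ x in cell z, Q ε x * |Ψ x * u x|^p with hM
  set M2 := ∫ x in cell z, Q (2*ε) x * |Ψ x * u x|^p with hM2
  set a := ∫ x in cell z, dens Ψ u g x with ha
  set E' := (normSq u g)^((p-2)/2) with hE'
  have hE0 : 0 ≤ E' := Real.rpow_nonneg (normSq_nonneg _ _) _
  have ha0 : 0 ≤ a := integral_nonneg fun x => by unfold dens; positivity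
  have hk0 : 0 ≤ ∫ x, ‖ε • k (latt z + ε • x)‖^2 := integral_nonneg fun x => by positivity
  have hs0 : 0 ≤ (M2 - M) / 2 := by
    rw [← j2]; exact integral_nonneg fun x => by positivity
  have h2 := Real.rpow_le_rpow hk0 i3 (show 0 ≤ p/2 by positivity)
  rw [Real.mul_rpow (by positivity) ha0] at h2
  have h3 : (ε^N)⁻¹ * ((T + M) / 2) ≤ C * ((ε^2 * (ε^N)⁻¹)^(p/2) * a^(p/2) + (ε^N)⁻¹ * ((M2 - M)/2)) := 
    h1.trans (by gcongr)
  have h4 : (T + M) / 2 ≤ C * (omega N p ε * a^(p/2) + (M2 - M)/2) := by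
    have := mul_le_mul_of_nonneg_left h3 hεN.le
    have e : ε^N * (C * ((ε^2 * (ε^N)⁻¹)^(p/2) * a^(p/2) + (ε^N)⁻¹ * ((M2 - M)/2))) = 
        C * (omega N p ε * a^(p/2) + (M2 - M)/2) := by
      unfold omega
      field_simp
    rw [e, ← mul_assoc, mul_inv_cancel₀ hεN.ne', one_mul] at this
    exact this
  have h5 := hCb ε hε (by linarith) u g h
  have hap : 0 ≤ a^(p/2) := by positivity
  calc (T + M) / 2 * E' ≤ C * (omega N p ε * a^(p/2) + (M2 - M)/2) * E' := by gcongr
    _ = C * ((E' * omega N p ε) * a^(p/2) + (M2 - M)/2 * E') := by ring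
    _ ≤ C * (Cb * a^(p/2) + (M2 - M)/2 * E') := by gcongr
    _ ≤ C * (Cb + 1) * (a^(p/2) + (M2 - M)/2 * E') := by
        have h6 : 0 ≤ C * a^(p/2) := by positivity
        have h7 : 0 ≤ C * Cb * ((M2 - M)/2 * E') := by positivity
        nlinarith

end Pool.Agent.Results.MP_9ab776_an
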