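import Pool.Agent.Hhelper28.Core.Remainder
import Pool.Agent.Hhelper28.Core.Abstract

open MeasureTheory Set Filter Topology Metric
open scoped ContDiff NNReal ENNReal

namespace Pool.Agent.Results.MP_9ab776_an

variable {N : ℕ}

lemma exists_param {p C1 C2 τ : ℝ} (hp : 2 < p) (hτ : τ < 1) : 
    ∃ s κ : ℝ, 0 < s ∧ 0 < κ ∧ κ < 1 ∧ κ^((p-2)/p) * (1+s)^2 < 1 ∧ 
      τ < (κ^(2/p) - (s + s^2)) / (1 + s) ∧ 
      τ < κ / (κ + ((C2 * (2 + C1) * ((1+s)^2 - κ^(2/p))^(p/2) + (C2 + 1) * ((1+s)^p - 1)) + p * s)) := by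
  have hp0 : 0 < p := by linarith
  have hp2 : 0 < p - 2 := by linarith
  set κ : ℝ → ℝ := fun s => ((1-s)/(1+s)^2)^(p/(p-2)) with hκ
  have ht : Tendsto (fun s : ℝ => s) (𝓝[>] 0) (𝓝 0) := nhdsWithin_le_nhds
  have h1 : Tendsto (fun s : ℝ => (1-s)/(1+s)^2) (𝓝[>] 0) (𝓝 1) := by
    have : Tendsto (fun s : ℝ => (1-s)/(1+s)^2) (𝓝[>] 0) (𝓝 ((1-0)/(1+0)^2)) := 
      (tendsto_const_nhds.sub ht).div ((tendsto_const_nhds.add ht).pow 2) (by norm_num)
    simpa using this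
  have h2 : Tendsto κ (𝓝[>] 0) (𝓝 1) := by
    have := h1.rpow_const (p := p/(p-2)) (Or.inl one_ne_zero)
    simpa using this
  have h3 : Tendsto (fun s => (κ s)^(2/p)) (𝓝[>] 0) (𝓝 1) := by
    have := h2.rpow_const (p := 2/p) (Or.inl one_ne_zero)
    simpa using this
  have h4 : Tendsto (fun s : ℝ => (κ s)^(2/p) - (s + s^2)) (𝓝[>] 0) (𝓝 1) := by
    have : Tendsto (fun s : ℝ => (κ s)^(2/p) - (s + s^2)) (𝓝[>] 0) (𝓝 (1 - (0 + 0^2))) := 
      h3.sub (ht.add (ht.pow 2))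
    simpa using this
  have h5 : Tendsto (fun s : ℝ => ((κ s)^(2/p) - (s + s^2)) / (1 + s)) (𝓝[>] 0) (𝓝 1) := by
    have : Tendsto (fun s : ℝ => ((κ s)^(2/p) - (s + s^2)) / (1 + s)) (𝓝[>] 0) (𝓝 (1 / (1 + 0))) := 
      h4.div (tendsto_const_nhds.add ht) (by norm_num)
    simpa using this
  have h6 : Tendsto (fun s : ℝ => (1+s)^2 - (κ s)^(2/p)) (𝓝[>] 0) (𝓝 0) := by
    have : Tendsto (fun s : ℝ => (1+s)^2 - (κ s)^(2/p)) (𝓝[>] 0) (𝓝 ((1+0)^2 - 1)) := 
      ((tendsto_const_nhds.add ht).pow 2).sub h3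
    simpa using this
  have h7 : Tendsto (fun s : ℝ => ((1+s)^2 - (κ s)^(2/p))^(p/2)) (𝓝[>] 0) (𝓝 0) := by
    have := h6.rpow_const (p := p/2) (Or.inr (by positivity))
    rwa [Real.zero_rpow (by positivity)] at this
  have h8 : Tendsto (fun s : ℝ => (1+s)^p - 1) (𝓝[>] 0) (𝓝 0) := by
    have : Tendsto (fun s : ℝ => (1+s)^p - 1) (𝓝[>] 0) (𝓝 ((1+0)^p - 1)) := 
      ((tendsto_const_nhds.add ht).rpow_const (Or.inl (by norm_num))).sub tendsto_const_nhds
    simpa using this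
  have h9 : Tendsto (fun s : ℝ => κ s / (κ s + ((C2 * (2 + C1) * ((1+s)^2 - (κ s)^(2/p))^(p/2) + (C2 + 1) * ((1+s)^p - 1)) + p * s))) 
      (𝓝[>] 0) (𝓝 1) := by
    have : Tendsto (fun s : ℝ => κ s / (κ s + ((C2 * (2 + C1) * ((1+s)^2 - (κ s)^(2/p))^(p/2) + (C2 + 1) * ((1+s)^p - 1)) + p * s))) 
      (𝓝[>] 0) (𝓝 (1 / (1 + ((C2 * (2 + C1) * 0 + (C2 + 1) * 0) + p * 0)))) := by
      refine h2.div (h2.add (((h7.const_mul _).add (h8.const_mul _)).add (ht.const_mul _))) (by norm_num)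
    simpa using this
  have e1 := h5.eventually (lt_mem_nhds hτ)
  have e2 := h9.eventually (lt_mem_nhds hτ)
  have e3 : ∀ᶠ s in 𝓝[>] (0:ℝ), s < 1 := ht.eventually (gt_mem_nhds one_pos)
  have e4 : ∀ᶠ s in 𝓝[>] (0:ℝ), 0 < s := eventually_mem_nhdsWithin
  obtain ⟨s, hs1, hs2, hs3, hs4⟩ := (e1.and (e2.and (e3.and e4))).exists
  have hb : 0 < (1-s)/(1+s)^2 := div_pos (by linarith) (by positivity)
  have hb1 : (1-s)/(1+s)^2 < 1 := by
    rw [div_lt_one (by positivity)]; nlinarith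
  refine ⟨s, κ s, hs4, by positivity, Real.rpow_lt_one hb.le hb1 (by positivity), ?_, hs1, hs2⟩
  rw [hκ]
  beta_reduce
  rw [← Real.rpow_mul hb.le, show p / (p-2) * ((p-2)/p) = 1 by field_simp, Real.rpow_one, div_mul_cancel₀ _ (by positivity)]
  linarith

theorem quantitative (hN : 2 ≤ N) {p : ℝ} (hp : 2 < p) (hp' : ((N:ℝ)-2)*p < 2*N) {δ τ : ℝ} (hδ0 : 0 < δ) 
    (hδ : δ < 1/2) (hτ0 : 0 ≤ τ) (hτ : τ < 1) :
    ∃ ε0 : ℝ, 0 < ε0 ∧ ∀ ε : ℝ, 0 < ε → ε < ε0 → ∀ (u : E N → ℝ) (g : E N → E N), IsLeastEnergySolution p ε u g → 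
      ∃ y : Fin N → ℤ, 
      τ < (∫ x in ball (latt y) δ, (‖g x‖^2 + (u x)^2)) / normSq u g ∧ 
      τ < (∫ x in ball (latt y) δ, |u x|^p) / ∫ x, |u x|^p := by
  obtain ⟨C2, hC2, hgns⟩ := cell_gns hN hp hp'
  obtain ⟨s, κ, hs, hκ, hκ1, hκs, hE, hP⟩ := exists_param (C1 := C1 N p) (C2 := C2) hp hτ
  obtain ⟨Ψ, r, hΨm, hr, hΨ0, hΨ1, hΨone, hΨzero, hΨg⟩ := exists_cutoff (N := N) hN hδ0 (show 0 < s^2 by positivity)
  refine ⟨min r (1/4), by positivity, ?_⟩
  intro ε hε hε0 u g hsol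
  have hcut : IsCut Ψ δ r := ⟨hΨm, hΨ0, hΨ1, hΨone, hΨzero⟩
  have hp0 : 0 < p := by linarith
  have S : Setup p ε δ r s u g Ψ := 
    ⟨hp, hε, hδ0, hδ, by have := hε0.le.trans (min_le_right _ _); linarith, hε0.le.trans (min_le_left _ _), hs, hsol, hcut, 
      hΨg u g hsol.1.1⟩
  have hE0 := S.E_pos
  have hzero : ∀ x, (∀ z, x ∉ cell z) → Ψ x = 0 ∧ gradient Ψ x = 0 := fun x hx => hcut.zero_of_not_cell hδ hx
  have sa : HasSum (fun z : Fin N → ℤ => ∫ x in cell z, dens Ψ u g x) (∫ x, dens Ψ u g x) := by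
    refine hasSum_cell (integrable_dens hΨm hsol.1.1) fun x hx => ?_
    unfold dens; rw [(hzero x hx).1, (hzero x hx).2]; simp
  have sM : HasSum (fun z : Fin N → ℤ => ∫ x in cell z, Q ε x * |Ψ x * u x|^p) (∫ x, Q ε x * |Ψ x * u x|^p) := by
    refine hasSum_cell (integrable_Q_mul S.hint) fun x hx => ?_
    rw [(hzero x hx).1]; simp [Real.zero_rpow hp0.ne']
  have sT : HasSum (fun z : Fin N → ℤ => ∫ x in cell z, |Ψ x * u x|^p) (∫ x, |Ψ x * u x|^p) := by
    refine hasSum_cell S.hint fun x hx => ?_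
    rw [(hzero x hx).1]; simp [Real.zero_rpow hp0.ne']
  obtain ⟨y, hy1, hy2, hy3⟩ := abstract_main hp hE0 hs hκ hκ1 (C1_pos N p) hC2 hκs 
    (fun z => integral_nonneg fun x => by unfold dens; positivity) sa S.total_energy sM S.total_M sT 
    (fun z => cell_ineq hp hsol hcut hδ0 hδ z) (fun z => cell_ineq2 hp hε S.hε2 hsol hcut hδ0 hδ z) 
    (fun z => hgns ε hε S.hε2 u g hsol Ψ δ r hcut hδ0 hδ z)
  refine ⟨y, ?_, ?_⟩
  · rw [lt_div_iff₀ hE0]
    rw [lt_div_iff₀ (by positivity)] at hE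
    have h1 := S.cell_energy y
    have h2 : τ * (1 + s) * normSq u g < (κ^(2/p) - (s + s^2)) * normSq u g := by gcongr
    have h3 : (1 + s) * (τ * normSq u g) < (1 + s) * ∫ x in ball (latt y) δ, (‖g x‖^2 + (u x)^2) := by nlinarith
    exact lt_of_mul_lt_mul_left h3 (by positivity)
  · set T := ∫ x in cell y, |Ψ x * u x|^p with hT
    set R := (C2 * (2 + C1 N p) * ((1+s)^2 - κ^(2/p))^(p/2) + (C2 + 1) * ((1+s)^p - 1)) with hR
    have hR0 : 0 ≤ R := by
      have hκp : κ^(2/p) < 1 := Real.rpow_lt_one hκ.le hκ1 (by positivity)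
      have h1 : 0 ≤ (1+s)^2 - κ^(2/p) := by nlinarith
      have h2 : 1 ≤ (1+s)^p := Real.one_le_rpow (by linarith) hp0.le
      have := C1_pos N p
      rw [hR]
      have h3 : 0 ≤ C2 * (2 + C1 N p) * ((1+s)^2 - κ^(2/p))^(p/2) := by positivity
      have h4 : 0 ≤ (C2 + 1) * ((1+s)^p - 1) := mul_nonneg (by positivity) (by linarith)
      linarith
    have hTM : κ * normSq u g < T := by
      refine hy1.trans_le ?_
      refine integral_mono (integrable_Q_mul S.hint).integrableOn S.hint.integrableOn fun x => ?_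
      have := Q_le_one ε x
      have h2 : 0 ≤ |Ψ x * u x|^p := by positivity
      nlinarith
    have hTb : T ≤ ∫ x in ball (latt y) δ, |u x|^p := by
      rw [hT, ← integral_indicator (cell_meas y), ← integral_indicator measurableSet_ball]
      refine integral_mono (S.hint.indicator (cell_meas y)) ((integrable_pow hsol).indicator measurableSet_ball) fun x => ?_
      beta_reduce
      by_cases hx : x ∈ cell y
      · rw [indicator_of_mem hx]
        by_cases hx' : x ∈ ball (latt y) δ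
        · rw [indicator_of_mem hx', S.abs_pow]
          have h2 : (Ψ x)^p ≤ 1 := Real.rpow_le_one (hΨ0 x) (hΨ1 x) hp0.le
          have h3 : 0 ≤ |u x|^p := by positivity
          nlinarith
        · rw [indicator_of_notMem hx']
          have hx2 : ∀ z, x ∉ ball (latt z) δ := by
            intro z
            by_cases hzy : z = y
            · rwa [hzy]
            · exact notMem_ball_of_cell hx hzy S.hδ.le
          rw [hΨzero x hx2]; simp [Real.zero_rpow hp0.ne']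
      · rw [indicator_of_notMem hx]
        exact indicator_nonneg (fun x _ => by positivity) x
    have hPint : ∫ x, |u x|^p ≤ T + (R + p * s) * normSq u g := by
      have := S.total_T
      linarith
    have hPpos : 0 < ∫ x, |u x|^p := by
      have h1 : T ≤ ∫ x, |u x|^p := hTb.trans (setIntegral_le_integral (integrable_pow hsol) (Eventually.of_forall fun x => by positivity))
      have : 0 < κ * normSq u g := by positivity
      linarith
    rw [lt_div_iff₀ hPpos]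
    rw [lt_div_iff₀ (by positivity)] at hP
    have h1 : τ * (R + p * s) < (1 - τ) * κ := by linarith
    have h2 : τ * (R + p * s) * normSq u g < (1 - τ) * κ * normSq u g := by gcongr
    have h3 : (1 - τ) * (κ * normSq u g) ≤ (1 - τ) * T := mul_le_mul_of_nonneg_left hTM.le (by linarith)
    have h4 : τ * ∫ x, |u x|^p ≤ τ * (T + (R + p * s) * normSq u g) := mul_le_mul_of_nonneg_left hPint hτ0
    nlinarith

end Pool.Agent.Results.MP_9ab776_an
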