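import Pool.Agent.Hhelper28.Core.Local4

open MeasureTheory Set Filter Topology Metric
open scoped ContDiff NNReal ENNReal

namespace Pool.Agent.Results.MP_9ab776_an

variable {N : ℕ}

lemma integral_add3 {f g h : E N → ℝ} (hf : Integrable f) (hg : Integrable g) (hh : Integrable h) : 
    ∫ x, (f x + g x + h x) = (∫ x, f x) + (∫ x, g x) + ∫ x, h x := by
  rw [← integral_add hf hg]
  exact integral_add (hf.add hg) hh

lemma gradient_one_sub {f : E N → ℝ} (x : E N) : 
    gradient (fun x => 1 - f x) x = - gradient f x := by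
  apply (InnerProductSpace.toDual ℝ (E N)).injective
  rw [toDual_gradient, map_neg, toDual_gradient, fderiv_const_sub]

lemma isMult_one_sub {m : E N → ℝ} (h : IsMult m) : IsMult (fun x => 1 - m x) := by
  obtain ⟨C, hC⟩ := h.bdd
  obtain ⟨D, hD⟩ := h.bddGrad
  refine ⟨contDiff_const.sub h.smooth, ⟨1 + C, fun x => ?_⟩, ⟨D, fun x => ?_⟩⟩
  · have := abs_sub (1:ℝ) (m x)
    have := hC x
    simp at *
    linarith
  · rw [gradient_one_sub, norm_neg]; exact hD x

/-- setup -/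
structure Setup (p ε δ r s : ℝ) (u : E N → ℝ) (g : E N → E N) (Ψ : E N → ℝ) : Prop where
  hp : 2 < p
  hε : 0 < ε
  hδ0 : 0 < δ
  hδ : δ < 1/2
  hε2 : 2 * ε ≤ 1/2
  hεr : ε ≤ r
  hs : 0 < s
  sol : IsLeastEnergySolution p ε u g
  cut : IsCut Ψ δ r
  small : ∫ x, ‖gradient Ψ x‖^2 * (u x)^2 ≤ s^2 * normSq u g

variable {p ε δ r s : ℝ} {u : E N → ℝ} {g : E N → E N} {Ψ : E N → ℝ}

lemma Setup.Q_m (S : Setup p ε δ r s u g Ψ) (x : E N) {t : ℝ} {f : ℝ → ℝ} (hf : f 1 = 0) : 
    Q ε x * (f (Ψ x) * t) = - (f (Ψ x) * t) := by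
  rcases Q_cases ε x with h | h
  · have : ∃ y : Fin N → ℤ, x ∈ ball (latt y) ε := by
      by_contra hc
      unfold Q at h
      rw [if_neg hc] at h
      norm_num at h
    obtain ⟨y, hy⟩ := this
    have := S.cut.one x y (ball_subset_ball S.hεr hy)
    rw [this, hf]; ring
  · rw [h]; ring

lemma Setup.E_pos (S : Setup p ε δ r s u g Ψ) : 0 < normSq u g := normSq_pos S.sol.1.1 S.sol.2.1.2.1

lemma Setup.mbd (S : Setup p ε δ r s u g Ψ) (x : E N) : 0 ≤ 1 - Ψ x * Ψ x ∧ 1 - Ψ x * Ψ x ≤ 1 := by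
  have h0 := S.cut.nonneg x
  have h1 := S.cut.le_one x
  constructor <;> nlinarith

lemma Setup.int_m (S : Setup p ε δ r s u g Ψ) {f : E N → ℝ} (hf : Integrable f) : 
    Integrable (fun x => (1 - Ψ x * Ψ x) * f x) := by
  have hc : Continuous (fun x => 1 - Ψ x * Ψ x) := by
    have := S.cut.mult.smooth.continuous
    fun_prop
  refine Integrable.bdd_mul (c := 1) hf hc.aestronglyMeasurable (Eventually.of_forall fun x => ?_)
  rw [Real.norm_eq_abs, abs_of_nonneg (S.mbd x).1]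
  exact (S.mbd x).2

lemma Setup.remainder (S : Setup p ε δ r s u g Ψ) : 
    ∫ x, ((1 - Ψ x * Ψ x) * (‖g x‖^2 + (u x)^2 + |u x|^p)) ≤ 2 * s * normSq u g := by
  have hH := S.sol.1.1
  have hg2 := integrable_normsq hH.memLp_grad
  have hu2 := integrable_sq hH.memLp
  have hup := integrable_pow S.sol
  have hm : IsMult (fun x => 1 - Ψ x * Ψ x) := isMult_one_sub S.cut.mult.sq
  have h1 := test_mult S.hp S.sol.1 hm
  have hgrad : ∀ x, gradient (fun x => 1 - Ψ x * Ψ x) x = -((2 * Ψ x) • gradient Ψ x) := by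
    intro x
    rw [gradient_one_sub, gradient_mul (differentiableAt_of_smooth S.cut.mult.smooth x) (differentiableAt_of_smooth S.cut.mult.smooth x),
      ← add_smul, two_mul]
  have hQ : ∀ x, Q ε x * ((1 - Ψ x * Ψ x) * |u x|^p) = - ((1 - Ψ x * Ψ x) * |u x|^p) := fun x => 
    S.Q_m x (f := fun t => 1 - t * t) (by norm_num)
  simp only [hQ, hgrad] at h1
  have hF1 := S.int_m hg2
  have hF3 := S.int_m hu2
  have hF4 := S.int_m hup
  have hF2 : Integrable (fun x => u x * inner ℝ (g x) (-((2 * Ψ x) • gradient Ψ x))) := by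
    obtain ⟨D, hD⟩ := S.cut.mult.bddGrad
    have hmeas : AEStronglyMeasurable (fun x => u x * inner ℝ (g x) (-((2 * Ψ x) • gradient Ψ x))) volume := by
      refine hH.memLp.1.mul (hH.memLp_grad.1.inner ?_)
      refine AEStronglyMeasurable.neg ?_
      refine Continuous.aestronglyMeasurable ?_
      have := S.cut.mult.smooth.continuous
      have := continuous_gradient S.cut.mult.smooth
      fun_prop
    refine Integrable.mono' (g := fun x => ‖g x‖^2 + ‖gradient Ψ x‖^2 * (u x)^2) (hg2.add (memLp_mult_grad S.cut.mult hH.memLp)) 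
      hmeas (Eventually.of_forall fun x => ?_)
    rw [Real.norm_eq_abs, abs_mul]
    have h2 := abs_real_inner_le_norm (g x) (-((2 * Ψ x) • gradient Ψ x))
    rw [norm_neg, norm_smul, Real.norm_eq_abs, abs_mul, abs_two, abs_of_nonneg (S.cut.nonneg x)] at h2
    have h3 := S.cut.le_one x
    have h3' := S.cut.nonneg x
    have h4 : |u x| * |inner ℝ (g x) (-((2 * Ψ x) • gradient Ψ x))| ≤ 2 * (‖g x‖ * (‖gradient Ψ x‖ * |u x|)) := by
      calc |u x| * |inner ℝ (g x) (-((2 * Ψ x) • gradient Ψ x))| ≤ |u x| * (‖g x‖ * (2 * Ψ x * ‖gradient Ψ x‖)) := by gcongr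
        _ ≤ |u x| * (‖g x‖ * (2 * 1 * ‖gradient Ψ x‖)) := by gcongr
        _ = _ := by ring
    have h5 : 2 * (‖g x‖ * (‖gradient Ψ x‖ * |u x|)) ≤ ‖g x‖^2 + (‖gradient Ψ x‖ * |u x|)^2 := by
      nlinarith [sq_nonneg (‖g x‖ - ‖gradient Ψ x‖ * |u x|)]
    rw [mul_pow, sq_abs] at h5
    linarith
  have h2 : ∫ x, ((1 - Ψ x * Ψ x) * (‖g x‖^2 + (u x)^2 + |u x|^p)) = 
      ∫ x, -(u x * inner ℝ (g x) (-((2 * Ψ x) • gradient Ψ x))) := by
    have e1 : ∫ x, ((1 - Ψ x * Ψ x) * ‖g x‖^2 + u x * inner ℝ (g x) (-((2 * Ψ x) • gradient Ψ x)) + (1 - Ψ x * Ψ x) * (u x)^2) = 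
        (∫ x, (1 - Ψ x * Ψ x) * ‖g x‖^2) + (∫ x, u x * inner ℝ (g x) (-((2 * Ψ x) • gradient Ψ x))) + 
          ∫ x, (1 - Ψ x * Ψ x) * (u x)^2 := by
      exact integral_add3 hF1 hF2 hF3
    rw [e1, integral_neg] at h1
    have e2 : ∫ x, ((1 - Ψ x * Ψ x) * (‖g x‖^2 + (u x)^2 + |u x|^p)) = 
        (∫ x, (1 - Ψ x * Ψ x) * ‖g x‖^2) + (∫ x, (1 - Ψ x * Ψ x) * (u x)^2) + ∫ x, (1 - Ψ x * Ψ x) * |u x|^p := by
      rw [← integral_add3 hF1 hF3 hF4]
      congr 1
      funext x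
      ring
    rw [e2, integral_neg]
    linarith
  rw [h2]
  have hs := S.hs
  have h3 : ∫ x, -(u x * inner ℝ (g x) (-((2 * Ψ x) • gradient Ψ x))) ≤ 
      ∫ x, (s * (‖g x‖^2 + (u x)^2) + s⁻¹ * (‖gradient Ψ x‖^2 * (u x)^2)) := by
    refine integral_mono hF2.neg ((hH.integrable.const_mul s).add ((memLp_mult_grad S.cut.mult hH.memLp).const_mul s⁻¹)) fun x => ?_
    beta_reduce
    rw [inner_neg_right, mul_neg, neg_neg, inner_smul_right]
    have h3 := S.cut.le_one x
    have h3' := S.cut.nonneg x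
    have h4 : u x * (2 * Ψ x * inner ℝ (g x) (gradient Ψ x)) ≤ 2 * (‖g x‖ * (‖gradient Ψ x‖ * |u x|)) := by
      have h2 := abs_real_inner_le_norm (g x) (gradient Ψ x)
      calc u x * (2 * Ψ x * inner ℝ (g x) (gradient Ψ x)) ≤ |u x * (2 * Ψ x * inner ℝ (g x) (gradient Ψ x))| := le_abs_self _
        _ = |u x| * (2 * Ψ x * |inner ℝ (g x) (gradient Ψ x)|) := by
            rw [abs_mul, abs_mul, abs_mul, abs_two, abs_of_nonneg (S.cut.nonneg x)]
        _ ≤ |u x| * (2 * 1 * (‖g x‖ * ‖gradient Ψ x‖)) := by gcongr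
        _ = _ := by ring
    have h5 : 2 * (‖g x‖ * (‖gradient Ψ x‖ * |u x|)) ≤ s * ‖g x‖^2 + s⁻¹ * (‖gradient Ψ x‖ * |u x|)^2 := by
      have h6 : 0 ≤ s⁻¹ * (s * ‖g x‖ - ‖gradient Ψ x‖ * |u x|)^2 := by positivity
      have h7 : s⁻¹ * (s * ‖g x‖ - ‖gradient Ψ x‖ * |u x|)^2 = s * ‖g x‖^2 - 2 * (‖g x‖ * (‖gradient Ψ x‖ * |u x|)) + 
          s⁻¹ * (‖gradient Ψ x‖ * |u x|)^2 := by
        field_simp
        ring
      linarith
    rw [mul_pow, sq_abs] at h5
    have h8 : 0 ≤ s * (u x)^2 := by positivity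
    linarith
  refine h3.trans ?_
  rw [integral_add (hH.integrable.const_mul s) ((memLp_mult_grad S.cut.mult hH.memLp).const_mul s⁻¹), 
    integral_const_mul, integral_const_mul]
  have h4 := mul_le_mul_of_nonneg_left S.small (inv_nonneg.2 hs.le)
  have h5 : s⁻¹ * (s^2 * normSq u g) = s * normSq u g := by field_simp
  rw [h5] at h4
  have h6 : ∫ x, (‖g x‖^2 + (u x)^2) = normSq u g := rfl
  rw [h6]
  linarith

lemma Setup.rem_p (S : Setup p ε δ r s u g Ψ) : 
    ∫ x, (1 - Ψ x * Ψ x) * |u x|^p ≤ 2 * s * normSq u g := by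
  refine le_trans ?_ S.remainder
  have hH := S.sol.1.1
  have hup := integrable_pow S.sol
  refine integral_mono (S.int_m hup) (S.int_m (hH.integrable.add hup)) fun x => ?_
  refine mul_le_mul_of_nonneg_left ?_ (S.mbd x).1
  simp only
  nlinarith [sq_nonneg ‖g x‖, sq_nonneg (u x)]

lemma Setup.total_energy (S : Setup p ε δ r s u g Ψ) : 
    ∫ x, dens Ψ u g x ≤ (1 + s)^2 * normSq u g := by
  have h1 : ∫ x, dens Ψ u g x = _ := normSq_mult S.hp S.sol S.cut.mult
  rw [h1]
  have hup := integrable_pow S.sol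
  have hQi : Integrable (fun x => Q ε x * |u x|^p) := integrable_Q_mul hup
  have h2 : ∫ x, Q ε x * ((Ψ x)^2 * |u x|^p) = normSq u g + ∫ x, (1 - Ψ x * Ψ x) * |u x|^p := by
    rw [S.sol.2.1.2.2, ← integral_add hQi (S.int_m hup)]
    congr 1
    funext x
    have := S.Q_m x (f := fun t => 1 - t * t) (t := |u x|^p) (by norm_num)
    nlinarith
  rw [h2]
  have h3 := S.rem_p
  have h4 := S.small
  nlinarith

lemma Setup.hint (S : Setup p ε δ r s u g Ψ) : Integrable (fun x => |Ψ x * u x|^p) := 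
  integrable_mul_pow S.hp S.sol.1.1.memLp (integrable_pow S.sol) S.cut.mult.smooth.continuous S.cut.nonneg S.cut.le_one

lemma Setup.abs_pow (S : Setup p ε δ r s u g Ψ) (x : E N) : |Ψ x * u x|^p = (Ψ x)^p * |u x|^p := by
  rw [abs_mul, abs_of_nonneg (S.cut.nonneg x), Real.mul_rpow (S.cut.nonneg x) (abs_nonneg _)]

lemma Setup.total_M (S : Setup p ε δ r s u g Ψ) : 
    normSq u g ≤ ∫ x, Q ε x * |Ψ x * u x|^p := by
  rw [S.sol.2.1.2.2]
  refine integral_mono (integrable_Q_mul (integrable_pow S.sol)) (integrable_Q_mul S.hint) fun x => ?_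
  have h1 := S.Q_m x (f := fun t => 1 - t^p) (t := |u x|^p) (by simp)
  rw [S.abs_pow]
  have h2 : (Ψ x)^p ≤ 1 := Real.rpow_le_one (S.cut.nonneg x) (S.cut.le_one x) (by linarith [S.hp])
  have h3 : 0 ≤ (1 - (Ψ x)^p) * |u x|^p := mul_nonneg (by linarith) (by positivity)
  nlinarith

lemma Setup.total_T (S : Setup p ε δ r s u g Ψ) : 
    ∫ x, |u x|^p ≤ (∫ x, |Ψ x * u x|^p) + p * s * normSq u g := by
  have hup := integrable_pow S.sol
  have h1 : ∫ x, |u x|^p ≤ ∫ x, (|Ψ x * u x|^p + (p/2) * ((1 - Ψ x * Ψ x) * |u x|^p)) := by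
    refine integral_mono hup (S.hint.add ((S.int_m hup).const_mul _)) fun x => ?_
    beta_reduce
    rw [S.abs_pow]
    have h0 := S.cut.nonneg x
    have hle := S.cut.le_one x
    have hp := S.hp
    have h2 := one_add_mul_self_le_rpow_one_add (s := Ψ x * Ψ x - 1) (by nlinarith) (p := p/2) (by linarith)
    have h3 : (1 + (Ψ x * Ψ x - 1))^(p/2) = (Ψ x)^p := by
      rw [show 1 + (Ψ x * Ψ x - 1) = (Ψ x)^(2:ℝ) by rw [Real.rpow_two]; ring, ← Real.rpow_mul h0]
      congr 1; ring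
    rw [h3] at h2
    have h4 : 0 ≤ |u x|^p := by positivity
    nlinarith
  refine h1.trans ?_
  rw [integral_add S.hint ((S.int_m hup).const_mul _), integral_const_mul]
  have h2 := S.rem_p
  have h3 := mul_le_mul_of_nonneg_left h2 (show 0 ≤ p/2 by linarith [S.hp])
  nlinarith

lemma Setup.cell_energy (S : Setup p ε δ r s u g Ψ) (y : Fin N → ℤ) : 
    ∫ x in cell y, dens Ψ u g x ≤ (1 + s) * (∫ x in ball (latt y) δ, (‖g x‖^2 + (u x)^2)) + (s + s^2) * normSq u g := by
  have hs := S.hs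
  have hH := S.sol.1.1
  have hd := integrable_dens S.cut.mult hH
  have hmg := memLp_mult_grad S.cut.mult hH.memLp
  have h1 : ∫ x in cell y, dens Ψ u g x ≤ 
      ∫ x, ((1 + s) * (ball (latt y) δ).indicator (fun x => ‖g x‖^2 + (u x)^2) x + (1 + s⁻¹) * (‖gradient Ψ x‖^2 * (u x)^2)) := by
    rw [← integral_indicator (cell_meas y)]
    refine integral_mono (hd.indicator (cell_meas y)) (((hH.integrable.indicator measurableSet_ball).const_mul _).add (hmg.const_mul _)) fun x => ?_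
    beta_reduce
    by_cases hx : x ∈ cell y
    · rw [indicator_of_mem hx]
      by_cases hx' : x ∈ ball (latt y) δ
      · rw [indicator_of_mem hx']
        unfold dens
        have h0 := S.cut.nonneg x
        have hle := S.cut.le_one x
        have h2 : ‖Ψ x • g x + u x • gradient Ψ x‖^2 ≤ (1 + s) * ‖g x‖^2 + (1 + s⁻¹) * (‖gradient Ψ x‖^2 * (u x)^2) := by
          have h3 := norm_add_le (Ψ x • g x) (u x • gradient Ψ x)
          rw [norm_smul, norm_smul, Real.norm_eq_abs, Real.norm_eq_abs, abs_of_nonneg h0] at h3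
          have h4 : Ψ x * ‖g x‖ ≤ ‖g x‖ := by nlinarith [norm_nonneg (g x)]
          have h5 : ‖Ψ x • g x + u x • gradient Ψ x‖ ≤ ‖g x‖ + |u x| * ‖gradient Ψ x‖ := by linarith
          have h6 := pow_le_pow_left₀ (norm_nonneg _) h5 2
          have h7 : (‖g x‖ + |u x| * ‖gradient Ψ x‖)^2 ≤ (1 + s) * ‖g x‖^2 + (1 + s⁻¹) * (|u x| * ‖gradient Ψ x‖)^2 := by
            have h8 : 0 ≤ s⁻¹ * (s * ‖g x‖ - |u x| * ‖gradient Ψ x‖)^2 := by positivity
            have h9 : s⁻¹ * (s * ‖g x‖ - |u x| * ‖gradient Ψ x‖)^2 = s * ‖g x‖^2 - 2 * (‖g x‖ * (|u x| * ‖gradient Ψ x‖)) + 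
                s⁻¹ * (|u x| * ‖gradient Ψ x‖)^2 := by
              field_simp
              ring
            nlinarith
          rw [mul_pow, sq_abs] at h7
          linarith
        have h3 : (Ψ x * u x)^2 ≤ (1 + s) * (u x)^2 := by
          have : (Ψ x)^2 ≤ 1 := by nlinarith
          rw [mul_pow]
          nlinarith [sq_nonneg (u x)]
        linarith
      · rw [indicator_of_notMem hx']
        have hx2 : ∀ z, x ∉ ball (latt z) δ := by
          intro z
          by_cases hzy : z = y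
          · rwa [hzy]
          · exact notMem_ball_of_cell hx hzy S.hδ.le
        unfold dens
        rw [S.cut.zero x hx2, S.cut.grad_zero hx2]
        simp
    · rw [indicator_of_notMem hx]
      have h2 : 0 ≤ (ball (latt y) δ).indicator (fun x => ‖g x‖^2 + (u x)^2) x := 
        indicator_nonneg (fun x _ => by positivity) x
      positivity
  refine h1.trans ?_
  rw [integral_add ((hH.integrable.indicator measurableSet_ball).const_mul _) (hmg.const_mul _), integral_const_mul, 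
    integral_const_mul, integral_indicator measurableSet_ball]
  have h2 := mul_le_mul_of_nonneg_left S.small (show 0 ≤ 1 + s⁻¹ by positivity)
  have h3 : (1 + s⁻¹) * (s^2 * normSq u g) = (s + s^2) * normSq u g := by field_simp; ring
  linarith

end Pool.Agent.Results.MP_9ab776_an
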