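import Pool.Agent.Hhelper28.Core.Calc

open MeasureTheory Set Filter Topology Metric
open scoped ContDiff

namespace Pool.Agent.Results.MP_9ab776_an

variable {N : ℕ}

lemma gradient_apply (f : E N → ℝ) (x : E N) (i : Fin N) : 
    gradient f x i = fderiv ℝ f x (EuclideanSpace.single i 1) := by
  have h : inner ℝ (gradient f x) (EuclideanSpace.single i (1:ℝ)) = fderiv ℝ f x (EuclideanSpace.single i 1) := by
    rw [← toDual_gradient, InnerProductSpace.toDual_apply_apply]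
  rw [← h, EuclideanSpace.inner_single_right]
  simp

lemma norm_gradient_sq (f : E N → ℝ) (x : E N) : 
    ‖gradient f x‖^2 = ∑ i, (fderiv ℝ f x (EuclideanSpace.single i 1))^2 := by
  rw [EuclideanSpace.norm_sq_eq]
  refine Finset.sum_congr rfl fun i _ => ?_
  rw [gradient_apply, Real.norm_eq_abs, sq_abs]

/-- the periodic distance substitute -/
noncomputable def rho (x : E N) : ℝ := ∑ i, Real.sin (Real.pi * x i) ^ 2

lemma rho_nonneg (x : E N) : 0 ≤ rho x := Finset.sum_nonneg fun i _ => sq_nonneg _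

lemma rho_le (x : E N) : rho x ≤ N := by
  unfold rho
  calc ∑ i, Real.sin (Real.pi * x i) ^ 2 ≤ ∑ i : Fin N, (1:ℝ) := 
        Finset.sum_le_sum fun i _ => Real.sin_sq_le_one _
    _ = N := by simp

lemma contDiff_rho : ContDiff ℝ ∞ (rho : E N → ℝ) := by
  unfold rho
  refine ContDiff.sum fun i _ => ?_
  have : ContDiff ℝ ∞ (fun x : E N => x i) := (EuclideanSpace.proj i : E N →L[ℝ] ℝ).contDiff
  fun_prop

/-- derivative of rho -/
noncomputable def drho (x : E N) : E N →L[ℝ] ℝ := 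
  ∑ i, (Real.pi * Real.sin (2 * (Real.pi * x i))) • (EuclideanSpace.proj i : E N →L[ℝ] ℝ)

lemma hasFDerivAt_coord (i : Fin N) (x : E N) : 
    HasFDerivAt (fun y : E N => y i) (EuclideanSpace.proj i : E N →L[ℝ] ℝ) x := 
  (EuclideanSpace.proj i : E N →L[ℝ] ℝ).hasFDerivAt

lemma hasFDerivAt_rho (x : E N) : HasFDerivAt rho (drho x) x := by
  unfold rho drho
  refine HasFDerivAt.fun_sum fun i _ => ?_
  have h1 : HasFDerivAt (fun y : E N => Real.pi * y i) (Real.pi • (EuclideanSpace.proj i : E N →L[ℝ] ℝ)) x :=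
    (hasFDerivAt_coord i x).const_mul _
  have h2 := h1.sin.pow 2
  refine h2.congr_fderiv ?_
  ext y
  rw [Real.sin_two_mul]
  simp
  ring

lemma drho_single (x : E N) (i : Fin N) : 
    drho x (EuclideanSpace.single i 1) = Real.pi * Real.sin (2 * (Real.pi * x i)) := by
  unfold drho
  simp []

lemma sum_sin_sq_le (x : E N) : ∑ i, (Real.pi * Real.sin (2 * (Real.pi * x i)))^2 ≤ 4 * Real.pi^2 * rho x := by
  unfold rho
  rw [Finset.mul_sum]
  refine Finset.sum_le_sum fun i _ => ?_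
  rw [Real.sin_two_mul]
  have h1 := Real.cos_sq_le_one (Real.pi * x i)
  have h2 : 0 ≤ Real.pi^2 * Real.sin (Real.pi * x i)^2 := by positivity
  nlinarith

lemma sum_cos (x : E N) : ∑ i, Real.cos (2 * (Real.pi * x i)) = N - 2 * rho x := by
  unfold rho
  rw [Finset.mul_sum]
  have : (N : ℝ) = ∑ i : Fin N, (1:ℝ) := by simp
  rw [this, ← Finset.sum_sub_distrib]
  refine Finset.sum_congr rfl fun i _ => ?_
  rw [Real.cos_two_mul, Real.cos_sq']
  ring

noncomputable def KK (N : ℕ) : ℝ := Real.exp 1 * (N + 1)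

/-- the logarithm -/
noncomputable def ell (τ : ℝ) (x : E N) : ℝ := Real.log (KK N / (rho x + τ))

lemma KK_pos (N : ℕ) : 0 < KK N := by unfold KK; positivity

lemma one_le_ell {τ : ℝ} (hτ : 0 < τ) (hτ1 : τ ≤ 1) (x : E N) : 1 ≤ ell τ x := by
  unfold ell
  have h1 : 0 < rho x + τ := by have := rho_nonneg x; linarith
  rw [Real.le_log_iff_exp_le (div_pos (KK_pos N) h1), le_div_iff₀ h1, KK]
  have := rho_le x
  gcongr

/-- Hardy weight -/
noncomputable def wt (τ : ℝ) (x : E N) : ℝ := ((rho x + τ) * (ell τ x)^2)⁻¹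

lemma wt_pos {τ : ℝ} (hτ : 0 < τ) (hτ1 : τ ≤ 1) (x : E N) : 0 < wt τ x := by
  unfold wt
  have := rho_nonneg x
  have := one_le_ell hτ hτ1 x
  positivity

lemma contDiff_ell {τ : ℝ} (hτ : 0 < τ) : ContDiff ℝ ∞ (ell τ : E N → ℝ) := by
  unfold ell
  have hpos : ∀ x : E N, rho x + τ ≠ 0 := fun x => by have := rho_nonneg x; positivity
  have h1 : ContDiff ℝ ∞ (fun x : E N => KK N / (rho x + τ)) := 
    contDiff_const.div (contDiff_rho.add contDiff_const) hpos
  exact h1.log (fun x => div_ne_zero (KK_pos N).ne' (hpos x))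

lemma continuous_wt {τ : ℝ} (hτ : 0 < τ) (hτ1 : τ ≤ 1) : Continuous (wt τ : E N → ℝ) := by
  unfold wt
  have h1 : Continuous (rho : E N → ℝ) := contDiff_rho.continuous
  have h2 : Continuous (ell τ : E N → ℝ) := (contDiff_ell hτ).continuous
  refine Continuous.inv₀ (by fun_prop) fun x => ?_
  have := rho_nonneg x
  have := one_le_ell hτ hτ1 x
  positivity

lemma wt_le {τ : ℝ} (hτ : 0 < τ) (hτ1 : τ ≤ 1) (x : E N) : wt τ x ≤ τ⁻¹ := by
  unfold wt
  have h1 := rho_nonneg x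
  have h2 := one_le_ell hτ hτ1 x
  refine inv_anti₀ hτ ?_
  nlinarith [mul_le_mul h2 h2 zero_le_one (by linarith)]

lemma hasFDerivAt_ell {τ : ℝ} (hτ : 0 < τ) (x : E N) : 
    HasFDerivAt (ell τ) (-(rho x + τ)⁻¹ • drho x) x := by
  have h1 : 0 < rho x + τ := by have := rho_nonneg x; linarith
  have h0 : (ell τ : E N → ℝ) = fun y => Real.log (KK N) - Real.log (rho y + τ) := by
    funext y
    have : 0 < rho y + τ := by have := rho_nonneg y; linarith
    rw [ell, Real.log_div (KK_pos N).ne' this.ne']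
  rw [h0]
  have h2 : HasFDerivAt (fun y : E N => rho y + τ) (drho x) x := (hasFDerivAt_rho x).add_const _
  have h3 := (h2.log h1.ne').const_sub (Real.log (KK N))
  refine h3.congr_fderiv ?_
  ext y
  simp

/-- the function G -/
noncomputable def GG (τ : ℝ) (x : E N) : ℝ := ((rho x + τ) * ell τ x)⁻¹

lemma hasFDerivAt_GG {τ : ℝ} (hτ : 0 < τ) (hτ1 : τ ≤ 1) (x : E N) : 
    HasFDerivAt (GG τ) (-((ell τ x - 1) / ((rho x + τ)^2 * (ell τ x)^2)) • drho x) x := by
  have h1 : 0 < rho x + τ := by have := rho_nonneg x; linarith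
  have h4 := one_le_ell hτ hτ1 x
  have h5 : 0 < ell τ x := by linarith
  have h2 : HasFDerivAt (fun y : E N => rho y + τ) (drho x) x := (hasFDerivAt_rho x).add_const _
  have h3 : HasFDerivAt (fun y : E N => (rho y + τ) * ell τ y) _ x := h2.mul (hasFDerivAt_ell hτ x)
  have h6 : HasFDerivAt (fun y : E N => ((rho y + τ) * ell τ y)⁻¹) _ x := 
    (hasDerivAt_inv (mul_pos h1 h5).ne').comp_hasFDerivAt x h3
  refine h6.congr_fderiv ?_
  ext y
  simp
  field_simp
  ring

/-- vector field components -/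
noncomputable def FF (τ : ℝ) (i : Fin N) (x : E N) : ℝ := 
  (Real.pi / 2) * (Real.sin (2 * (Real.pi * x i)) * GG τ x)

lemma hasFDerivAt_FF {τ : ℝ} (hτ : 0 < τ) (hτ1 : τ ≤ 1) (i : Fin N) (x : E N) : 
    HasFDerivAt (FF τ i) ((Real.pi / 2) • (Real.sin (2 * (Real.pi * x i)) • 
      (-((ell τ x - 1) / ((rho x + τ)^2 * (ell τ x)^2)) • drho x) + GG τ x • 
        ((Real.cos (2 * (Real.pi * x i)) * (2 * Real.pi)) • (EuclideanSpace.proj i : E N →L[ℝ] ℝ)))) x := by
  unfold FF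
  have h1 : HasFDerivAt (fun y : E N => 2 * (Real.pi * y i)) 
      ((2 * Real.pi) • (EuclideanSpace.proj i : E N →L[ℝ] ℝ)) x := by
    have := ((hasFDerivAt_coord i x).const_mul Real.pi).const_mul 2
    rwa [smul_smul] at this
  have h2 := (h1.sin.mul (hasFDerivAt_GG hτ hτ1 x)).const_mul (Real.pi / 2)
  refine h2.congr_fderiv ?_
  rw [smul_smul (Real.cos (2 * (Real.pi * x i)))]

lemma contDiff_FF {τ : ℝ} (hτ : 0 < τ) (hτ1 : τ ≤ 1) (i : Fin N) : ContDiff ℝ ∞ (FF τ i : E N → ℝ) := by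
  unfold FF GG
  have h1 : ContDiff ℝ ∞ (rho : E N → ℝ) := contDiff_rho
  have h2 : ContDiff ℝ ∞ (ell τ : E N → ℝ) := contDiff_ell hτ
  have h3 : ContDiff ℝ ∞ (fun x : E N => x i) := (EuclideanSpace.proj i : E N →L[ℝ] ℝ).contDiff
  have h4 : ∀ x : E N, (rho x + τ) * ell τ x ≠ 0 := fun x => by
    have := rho_nonneg x
    have := one_le_ell hτ hτ1 x
    positivity
  have h5 : ContDiff ℝ ∞ (fun x : E N => ((rho x + τ) * ell τ x)⁻¹) := 
    ((h1.add contDiff_const).mul h2).inv h4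
  fun_prop

lemma sum_FF_sq {τ : ℝ} (hτ : 0 < τ) (hτ1 : τ ≤ 1) (x : E N) : 
    ∑ i, (FF τ i x)^2 ≤ Real.pi^2 * wt τ x := by
  have h1 : 0 < rho x + τ := by have := rho_nonneg x; linarith
  have h4 := one_le_ell hτ hτ1 x
  have h5 : 0 < ell τ x := by linarith
  have e : ∑ i, (FF τ i x)^2 = (GG τ x)^2 / 4 * ∑ i, (Real.pi * Real.sin (2 * (Real.pi * x i)))^2 := by
    rw [Finset.mul_sum]
    refine Finset.sum_congr rfl fun i _ => ?_
    unfold FF; ring
  rw [e]
  have h6 := sum_sin_sq_le x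
  calc (GG τ x)^2 / 4 * ∑ i, (Real.pi * Real.sin (2 * (Real.pi * x i)))^2 
      ≤ (GG τ x)^2 / 4 * (4 * Real.pi^2 * rho x) := by gcongr
    _ = Real.pi^2 * ((GG τ x)^2 * rho x) := by ring
    _ ≤ Real.pi^2 * ((GG τ x)^2 * (rho x + τ)) := by gcongr; linarith
    _ = Real.pi^2 * wt τ x := by
        unfold GG wt
        field_simp

lemma div_FF {τ : ℝ} (hτ : 0 < τ) (hτ1 : τ ≤ 1) (hN : 2 ≤ N) (x : E N) : 
    2 * Real.pi^2 * wt τ x - 2 * Real.pi^2 ≤ ∑ i, fderiv ℝ (FF τ i) x (EuclideanSpace.single i 1) := by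
  have h0 := rho_nonneg x
  have h1 : 0 < rho x + τ := by linarith
  have h4 := one_le_ell hτ hτ1 x
  have h5 : 0 < ell τ x := by linarith
  have hN' : (2:ℝ) ≤ N := by exact_mod_cast hN
  set c := (ell τ x - 1) / ((rho x + τ)^2 * (ell τ x)^2) with hc
  have hc0 : 0 ≤ c := by
    rw [hc]
    apply div_nonneg (by linarith) (by positivity)
  have e : ∑ i, fderiv ℝ (FF τ i) x (EuclideanSpace.single i 1) = 
      -(c / 2) * ∑ i, (Real.pi * Real.sin (2 * (Real.pi * x i)))^2 + 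
      Real.pi^2 * GG τ x * ∑ i, Real.cos (2 * (Real.pi * x i)) := by
    rw [Finset.mul_sum, Finset.mul_sum, ← Finset.sum_add_distrib]
    refine Finset.sum_congr rfl fun i _ => ?_
    rw [(hasFDerivAt_FF hτ hτ1 i x).fderiv]
    simp [drho_single]
    ring
  rw [e, sum_cos]
  have h6 := sum_sin_sq_le x
  have h7 : -(c/2) * (4 * Real.pi^2 * rho x) ≤ -(c / 2) * ∑ i, (Real.pi * Real.sin (2 * (Real.pi * x i)))^2 := by
    have := mul_le_mul_of_nonneg_left h6 (show 0 ≤ c/2 by positivity)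
    linarith
  refine le_trans ?_ (add_le_add_left h7 _)
  have hW : wt τ x = ((rho x + τ) * (ell τ x)^2)⁻¹ := rfl
  have hG : GG τ x = ell τ x * wt τ x := by
    unfold GG wt; field_simp
  have hcW : c * (rho x + τ) = (ell τ x - 1) * wt τ x := by
    rw [hc, hW]; field_simp
  have hWpos := wt_pos hτ hτ1 x
  -- rho * G ≤ 1
  have hrG : rho x * GG τ x ≤ 1 := by
    unfold GG
    rw [← div_eq_mul_inv, div_le_one (by positivity)]
    nlinarith
  have h8 : c * rho x ≤ (ell τ x - 1) * wt τ x := by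
    rw [← hcW]; nlinarith
  have h9 : 0 < Real.pi^2 := by positivity
  have key : 2 * wt τ x - 2 ≤ - (2 * (c * rho x)) + GG τ x * (N - 2 * rho x) := by
    have : 2 * (ell τ x * wt τ x) ≤ N * GG τ x := by
      rw [← hG]
      have : 0 < GG τ x := by rw [hG]; positivity
      nlinarith
    nlinarith
  nlinarith

end Pool.Agent.Results.MP_9ab776_an
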