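import Pool.Agent.Hhelper28.Core.Cutoff

open MeasureTheory Set Filter Topology Metric
open scoped ContDiff

namespace Pool.Agent.Results.MP_9ab776_an

variable {N : ℕ}

lemma Q_cases (ε : ℝ) (x : E N) : Q ε x = 1 ∨ Q ε x = -1 := by
  unfold Q; split_ifs <;> simp

lemma Q_sq (ε : ℝ) (x : E N) : Q ε x * Q ε x = 1 := by
  rcases Q_cases ε x with h | h <;> rw [h] <;> norm_num

lemma abs_Q (ε : ℝ) (x : E N) : |Q ε x| = 1 := by
  rcases Q_cases ε x with h | h <;> rw [h] <;> norm_num

lemma Q_le_one (ε : ℝ) (x : E N) : Q ε x ≤ 1 := by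
  rcases Q_cases ε x with h | h <;> rw [h]; norm_num

lemma neg_one_le_Q (ε : ℝ) (x : E N) : -1 ≤ Q ε x := by
  rcases Q_cases ε x with h | h <;> rw [h]; norm_num

lemma measurable_Q (ε : ℝ) : Measurable (Q ε : E N → ℝ) := by
  unfold Q
  refine Measurable.ite ?_ measurable_const measurable_const
  have : {x : E N | ∃ y : Fin N → ℤ, x ∈ ball (latt y) ε} = ⋃ y : Fin N → ℤ, ball (latt y) ε := by
    ext x; simp
  rw [this]
  exact (isOpen_iUnion fun y => isOpen_ball).measurableSet

lemma integrable_Q_mul {ε : ℝ} {f : E N → ℝ} (hf : Integrable f) : Integrable (fun x => Q ε x * f x) := by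
  refine Integrable.bdd_mul (c := 1) hf (measurable_Q ε).aestronglyMeasurable (Eventually.of_forall fun x => ?_)
  rw [Real.norm_eq_abs, abs_Q]

lemma integrable_of_Q_mul {ε : ℝ} {f : E N → ℝ} (hf : Integrable (fun x => Q ε x * f x)) : Integrable f := by
  have := integrable_Q_mul (ε := ε) hf
  refine this.congr (Eventually.of_forall fun x => ?_)
  beta_reduce
  rw [← mul_assoc, Q_sq, one_mul]

lemma normSq_pos {u : E N → ℝ} {g : E N → E N} (h : IsH1 u g) (hu : ¬ (u =ᵐ[volume] 0)) : 0 < normSq u g := by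
  refine lt_of_le_of_ne (normSq_nonneg u g) fun h0 => hu ?_
  have h1 := (integral_eq_zero_iff_of_nonneg (fun x => by positivity) h.integrable).1 h0.symm
  filter_upwards [h1] with x hx
  have h2 : ‖g x‖^2 + (u x)^2 = 0 := hx
  have h3 : (u x)^2 = 0 := by nlinarith [sq_nonneg (u x), sq_nonneg ‖g x‖]
  simpa using h3

lemma energy_nehari {p ε : ℝ} {u : E N → ℝ} {g : E N → E N} (h : IsNehari p ε u g) : 
    energy p ε u g = (1/2 - 1/p) * normSq u g := by
  unfold energy
  rw [← h.2.2]; ring

lemma le_of_nehari {p ε : ℝ} (hp : 2 < p) {u v : E N → ℝ} {g k : E N → E N} (h : IsLeastEnergySolution p ε u g) 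
    (hv : IsNehari p ε v k) : normSq u g ≤ normSq v k := by
  have h1 : leastEnergy N p ε ≤ energy p ε v k := by
    refine csInf_le ⟨0, ?_⟩ ⟨v, k, hv, rfl⟩
    rintro t ⟨w, l, hw, rfl⟩
    rw [energy_nehari hw]
    have := normSq_nonneg w l
    have : 1/p < 1/2 := by gcongr
    nlinarith
  rw [← h.2.2, energy_nehari h.2.1, energy_nehari hv] at h1
  have : 0 < 1/2 - 1/p := by
    have : 1/p < 1/2 := by gcongr
    linarith
  exact le_of_mul_le_mul_left h1 this

/-- the least energy inequality -/
lemma least_energy_ineq {p ε : ℝ} (hp : 2 < p) {u v : E N → ℝ} {g k : E N → E N} 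
    (h : IsLeastEnergySolution p ε u g) (hv : IsH1 v k) : 
    (∫ x, Q ε x * |v x|^p) * (normSq u g)^((p-2)/2) ≤ (normSq v k)^(p/2) := by
  set M := ∫ x, Q ε x * |v x|^p with hM
  set n := normSq v k with hn
  have hE : 0 < normSq u g := normSq_pos h.1.1 h.2.1.2.1
  by_cases hM0 : M ≤ 0
  · have h1 : M * (normSq u g)^((p-2)/2) ≤ 0 := mul_nonpos_of_nonpos_of_nonneg hM0 (by positivity)
    exact h1.trans (Real.rpow_nonneg (normSq_nonneg _ _) _)
  push Not at hM0
  have hv0 : ¬ (v =ᵐ[volume] 0) := by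
    intro h0
    have : M = 0 := by
      rw [hM]
      have : (fun x => Q ε x * |v x|^p) =ᵐ[volume] fun _ => 0 := by
        filter_upwards [h0] with x hx
        rw [hx]
        simp [Real.zero_rpow (by linarith : p ≠ 0)]
      rw [integral_congr_ae this]; simp
    linarith
  have hn0 : 0 < n := normSq_pos hv hv0
  set t := (n / M)^(1/(p-2)) with ht
  have ht0 : 0 < t := by positivity
  have hp2 : 0 < p - 2 := by linarith
  have htp : t^(p-2) = n / M := by
    rw [ht, ← Real.rpow_mul (by positivity), one_div_mul_cancel hp2.ne', Real.rpow_one]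
  have hN : IsNehari p ε (fun x => t * v x) (fun x => t • k x) := by
    refine ⟨hv.smul t, ?_, ?_⟩
    · intro h0
      apply hv0
      filter_upwards [h0] with x hx
      have : t * v x = 0 := hx
      simpa [ht0.ne'] using this
    · rw [normSq_smul]
      have e : ∀ x, Q ε x * |t * v x|^p = t^p * (Q ε x * |v x|^p) := by
        intro x
        rw [abs_mul, abs_of_pos ht0, Real.mul_rpow ht0.le (abs_nonneg _)]
        ring
      simp only [e]
      rw [integral_const_mul, ← hM]
      have : t^p = t^2 * (n / M) := by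
        rw [← htp, ← Real.rpow_natCast, ← Real.rpow_add ht0]
        norm_num
      rw [this]
      field_simp
      exact hn.symm
  have h1 := le_of_nehari hp h hN
  rw [normSq_smul, ← hn] at h1
  have h2 : (normSq u g)^((p-2)/2) ≤ (t^2 * n)^((p-2)/2) := Real.rpow_le_rpow hE.le h1 (by positivity)
  have h3 : (t^2 * n)^((p-2)/2) = n^(p/2) / M := by
    rw [Real.mul_rpow (by positivity) hn0.le, ← Real.rpow_natCast, ← Real.rpow_mul ht0.le]
    rw [show ((2:ℕ):ℝ) * ((p-2)/2) = p - 2 by push_cast; ring, htp]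
    have : n^(p/2) = n * n^((p-2)/2) := by
      rw [← Real.rpow_one_add' hn0.le (by linarith)]
      congr 1; ring
    rw [this]; ring
  rw [h3, le_div_iff₀ hM0] at h2
  linarith

lemma integrable_pow {p ε : ℝ} {u : E N → ℝ} {g : E N → E N} (h : IsLeastEnergySolution p ε u g) : 
    Integrable (fun x => |u x|^p) := by
  have hE : 0 < normSq u g := normSq_pos h.1.1 h.2.1.2.1
  apply integrable_of_Q_mul (ε := ε)
  by_contra hc
  have := h.2.1.2.2
  rw [integral_undef hc] at this
  linarith

/-- testing the equation with `m u` -/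
lemma test_mult {p ε : ℝ} (hp : 2 < p) {u : E N → ℝ} {g : E N → E N} (h : IsWeakSolution p ε u g) 
    {m : E N → ℝ} (hm : IsMult m) : 
    ∫ x, (m x * ‖g x‖^2 + u x * inner ℝ (g x) (gradient m x) + m x * (u x)^2) = 
      ∫ x, Q ε x * (m x * |u x|^p) := by
  have h1 := h.2 _ _ (h.1.mul hm)
  have e1 : ∀ x, (m x * ‖g x‖^2 + u x * inner ℝ (g x) (gradient m x) + m x * (u x)^2) = 
      (inner ℝ (g x) (m x • g x + u x • gradient m x) + u x * (m x * u x)) := by
    intro x
    rw [inner_add_right, inner_smul_right, inner_smul_right, real_inner_self_eq_norm_sq]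
    ring
  have e2 : ∀ x, Q ε x * (m x * |u x|^p) = Q ε x * |u x| ^ (p - 2) * u x * (m x * u x) := by
    intro x
    by_cases h0 : u x = 0
    · rw [h0]; simp [Real.zero_rpow (by linarith : p ≠ 0)]
    · have h2 : |u x|^p = |u x|^(p-2) * (u x)^2 := by
        rw [← sq_abs (u x), ← Real.rpow_natCast (|u x|) 2, ← Real.rpow_add (by positivity)]
        norm_num
      rw [h2]; ring
  simp only [e1, e2]
  exact h1

/-- energy of `m u` -/
lemma normSq_mult {p ε : ℝ} (hp : 2 < p) {u : E N → ℝ} {g : E N → E N} (h : IsLeastEnergySolution p ε u g) 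
    {m : E N → ℝ} (hm : IsMult m) : 
    normSq (fun x => m x * u x) (fun x => m x • g x + u x • gradient m x) = 
      (∫ x, Q ε x * ((m x)^2 * |u x|^p)) + ∫ x, ‖gradient m x‖^2 * (u x)^2 := by
  have h1 := test_mult hp h.1 hm.sq
  have h2 : ∀ x, Q ε x * ((m x)^2 * |u x|^p) = Q ε x * ((m x * m x) * |u x|^p) := by intro x; ring
  simp only [h2]
  rw [← h1]
  obtain ⟨C, hC⟩ := hm.bdd
  obtain ⟨D, hD⟩ := hm.bddGrad
  have hH := h.1.1.mul hm
  have hi2 : Integrable (fun x => ‖gradient m x‖^2 * (u x)^2) := memLp_mult_grad hm h.1.1.memLp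
  have hi1 : Integrable (fun x => (m x * m x) * ‖g x‖^2 + u x * inner ℝ (g x) (gradient (fun x => m x * m x) x) + (m x * m x) * (u x)^2) := by
    have := hH.integrable.sub hi2
    refine this.congr (Eventually.of_forall fun x => ?_)
    simp only [Pi.sub_apply]
    rw [gradient_mul (differentiableAt_of_smooth hm.smooth x) (differentiableAt_of_smooth hm.smooth x)]
    rw [norm_add_sq_real, norm_smul, norm_smul, mul_pow, mul_pow, Real.norm_eq_abs, Real.norm_eq_abs, sq_abs, sq_abs]
    rw [inner_add_right, inner_smul_right, inner_smul_left, inner_smul_right]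
    simp
    ring
  rw [← integral_add hi1 hi2]
  unfold normSq
  congr 1
  funext x
  rw [gradient_mul (differentiableAt_of_smooth hm.smooth x) (differentiableAt_of_smooth hm.smooth x)]
  rw [norm_add_sq_real, norm_smul, norm_smul, mul_pow, mul_pow, Real.norm_eq_abs, Real.norm_eq_abs, sq_abs, sq_abs]
  rw [inner_add_right, inner_smul_right, inner_smul_left, inner_smul_right]
  simp
  ring

end Pool.Agent.Results.MP_9ab776_an
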